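import Pool.Agent.H14Trans.Comb

/-!
# Truncated inclusion-exclusion and Hooley's inequality
-/

set_option autoImplicit false

namespace Pool.Agent.H14Trans

open Finset Classical

variable {bad : ℕ → ℕ → Prop} {ω : ℕ → ℕ} {D D₁ D₂ : Finset ℕ} {f f₁ f₂ : ℕ → ℝ}
  {E E₁ E₂ R R₁ R₂ : ℝ}

lemma Comb.add (h₁ : Comb bad ω D f₁ E₁ R₁) (h₂ : Comb bad ω D f₂ E₂ R₂) :
    Comb bad ω D (fun s => f₁ s + f₂ s) (E₁ + E₂) (R₁ + R₂) := by
  obtain ⟨c₁, a1, a2, a3⟩ := h₁
  obtain ⟨c₂, b1, b2, b3⟩ := h₂
  refine ⟨fun S => c₁ S + c₂ S, ?_, ?_, ?_⟩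
  · intro s
    beta_reduce
    rw [a1, b1, ← sum_add_distrib]
    exact sum_congr rfl fun S _ => by ring
  · rw [a2, b2, ← sum_add_distrib]
    exact sum_congr rfl fun S _ => by ring
  · refine le_trans (sum_le_sum fun S _ => ?_) ((sum_add_distrib).le.trans (add_le_add a3 b3))
    rw [← add_mul]
    exact mul_le_mul_of_nonneg_right (abs_add_le _ _) (prod_nonneg fun b _ => by positivity)

/-- elementary symmetric sums -/
noncomputable def esum (D : Finset ℕ) (x : ℕ → ℝ) (j : ℕ) : ℝ :=
  ∑ S ∈ powersetCard j D, ∏ b ∈ S, x b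

lemma esum_nonneg {D : Finset ℕ} {x : ℕ → ℝ} (hx : ∀ b ∈ D, 0 ≤ x b) (j : ℕ) :
    0 ≤ esum D x j :=
  sum_nonneg fun S hS => prod_nonneg fun b hb => hx b ((mem_powersetCard.mp hS).1 hb)

lemma esum_le {D : Finset ℕ} {x : ℕ → ℝ} (hx : ∀ b ∈ D, 0 ≤ x b) (j : ℕ) :
    esum D x j ≤ (∑ b ∈ D, x b) ^ j / j.factorial := by
  induction D using Finset.induction_on generalizing j with
  | empty =>
    unfold esum
    cases j with
    | zero => simp
    | succ j =>
      have : powersetCard (j + 1) (∅ : Finset ℕ) = ∅ := by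
        rw [powersetCard_eq_empty]; simp
      rw [this]
      simp
  | insert a D ha ih =>
    have hxa : 0 ≤ x a := hx a (mem_insert_self _ _)
    have hxD : ∀ b ∈ D, 0 ≤ x b := fun b hb => hx b (mem_insert_of_mem hb)
    cases j with
    | zero => simp [esum]
    | succ j =>
      have e1 : esum (insert a D) x (j + 1) = esum D x (j + 1) + x a * esum D x j := by
        unfold esum
        rw [powersetCard_succ_insert ha, sum_union, sum_image, mul_sum]
        · congr 1
          refine sum_congr rfl fun S hS => ?_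
          rw [prod_insert]
          intro h
          exact ha ((mem_powersetCard.mp hS).1 h)
        · intro S hS T hT hST
          have h1 : a ∉ S := fun h => ha ((mem_powersetCard.mp hS).1 h)
          have h2 : a ∉ T := fun h => ha ((mem_powersetCard.mp hT).1 h)
          have h3 := congrArg (fun U => U.erase a) hST
          simpa [erase_insert h1, erase_insert h2] using h3
        · rw [disjoint_left]
          intro S hS hS'
          rw [mem_image] at hS'
          obtain ⟨T, _, rfl⟩ := hS'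
          exact ha ((mem_powersetCard.mp hS).1 (mem_insert_self _ _))
      have h1 := ih hxD (j + 1)
      have h2 := ih hxD j
      have hX : 0 ≤ ∑ b ∈ D, x b := sum_nonneg hxD
      rw [e1, sum_insert ha]
      set X := ∑ b ∈ D, x b
      have h3 : (X ^ (j + 1) + (j + 1) * x a * X ^ j) ≤ (x a + X) ^ (j + 1) := by
        have h4 : ∀ n : ℕ, X ^ (n + 1) + (n + 1) * x a * X ^ n ≤ (x a + X) ^ (n + 1) := by
          intro n
          induction n with
          | zero => simp; linarith
          | succ n ihn =>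
            have h5 : (x a + X) * (X ^ (n + 1) + (n + 1) * x a * X ^ n) ≤
                (x a + X) ^ (n + 1 + 1) := by
              rw [pow_succ' (x a + X) (n + 1)]
              exact mul_le_mul_of_nonneg_left ihn (by positivity)
            refine le_trans ?_ h5
            have h6 : 0 ≤ (n + 1 : ℝ) * x a ^ 2 * X ^ n := by positivity
            push_cast
            ring_nf
            ring_nf at h6
            nlinarith [h6]
        exact h4 j
      have hf : (0 : ℝ) < ((j + 1).factorial : ℝ) := by positivity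
      have hf' : (0 : ℝ) < (j.factorial : ℝ) := by positivity
      have e2 : ((j + 1).factorial : ℝ) = (j + 1) * j.factorial := by
        rw [Nat.factorial_succ]; push_cast; ring
      calc esum D x (j + 1) + x a * esum D x j
          ≤ X ^ (j + 1) / (j + 1).factorial + x a * (X ^ j / j.factorial) :=
            add_le_add h1 (mul_le_mul_of_nonneg_left h2 hxa)
        _ = (X ^ (j + 1) + (j + 1) * x a * X ^ j) / (j + 1).factorial := by
            rw [e2]; field_simp
        _ ≤ (x a + X) ^ (j + 1) / (j + 1).factorial := by gcongr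

/-- truncated inclusion-exclusion -/
noncomputable def yy (bad : ℕ → ℕ → Prop) (D : Finset ℕ) (k s : ℕ) : ℝ :=
  ∑ S ∈ D.powerset, (if #S ≤ k then (-1) ^ #S else 0) * ind (AllBad bad S s)

/-- the next term -/
noncomputable def zz (bad : ℕ → ℕ → Prop) (D : Finset ℕ) (k s : ℕ) : ℝ :=
  ∑ S ∈ D.powerset, (if #S = k + 1 then 1 else 0) * ind (AllBad bad S s)

/-- indicator of the sifted set -/
noncomputable def xx (bad : ℕ → ℕ → Prop) (D : Finset ℕ) (s : ℕ) : ℝ :=
  ∏ b ∈ D, (1 - ind (bad b s))

lemma sum_powerset_card_le {g : Finset ℕ → ℝ} (D : Finset ℕ) (k : ℕ) :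
    ∑ S ∈ D.powerset, (if #S ≤ k then g S else 0) =
      ∑ j ∈ range (k + 1), ∑ S ∈ powersetCard j D, g S := by
  rw [← sum_filter]
  have e : D.powerset.filter (fun S => #S ≤ k) =
      (range (k + 1)).biUnion (fun j => powersetCard j D) := by
    ext S
    simp only [mem_filter, mem_powerset, mem_biUnion, mem_range, mem_powersetCard]
    constructor
    · rintro ⟨h1, h2⟩; exact ⟨#S, by omega, h1, rfl⟩
    · rintro ⟨j, h1, h2, h3⟩; exact ⟨h2, by omega⟩
  rw [e, sum_biUnion]
  intro i _ j _ hij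
  rw [Function.onFun, disjoint_left]
  intro S hS hS'
  rw [mem_powersetCard] at hS hS'
  exact hij (hS.2.symm.trans hS'.2)

lemma comb_yy (D : Finset ℕ) (k : ℕ) :
    ∃ τ, Comb bad ω D (yy bad D k) τ ((1 + ∑ b ∈ D, (ω b : ℝ)) ^ k) := by
  refine ⟨_, fun S => if #S ≤ k then (-1) ^ #S else 0, fun s => rfl, rfl, ?_⟩
  have h1 : ∑ S ∈ D.powerset, |(if #S ≤ k then (-1 : ℝ) ^ #S else 0)| * ∏ b ∈ S, (ω b : ℝ) =
      ∑ j ∈ range (k + 1), esum D (fun b => (ω b : ℝ)) j := by
    unfold esum
    rw [← sum_powerset_card_le]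
    refine sum_congr rfl fun S _ => ?_
    split_ifs <;> simp
  rw [h1]
  have hx : (0 : ℝ) ≤ ∑ b ∈ D, (ω b : ℝ) := by positivity
  rw [add_comm (1 : ℝ), add_pow]
  refine sum_le_sum fun j hj => ?_
  have h2 := esum_le (D := D) (x := fun b => (ω b : ℝ)) (fun b _ => by positivity) j
  refine h2.trans ?_
  have h3 : (1 : ℝ) ≤ (k.choose j : ℝ) := by
    rw [mem_range] at hj
    exact_mod_cast Nat.choose_pos (by omega)
  have h4 : (1 : ℝ) ≤ (j.factorial : ℝ) := by
    exact_mod_cast Nat.factorial_pos j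
  have h5 : (0 : ℝ) ≤ (∑ b ∈ D, (ω b : ℝ)) ^ j := by positivity
  rw [one_pow, mul_one]
  calc (∑ b ∈ D, (ω b : ℝ)) ^ j / j.factorial ≤ (∑ b ∈ D, (ω b : ℝ)) ^ j := div_le_self h5 h4
    _ ≤ (∑ b ∈ D, (ω b : ℝ)) ^ j * (k.choose j) := le_mul_of_one_le_right h5 h3

lemma comb_zz (D : Finset ℕ) (k : ℕ) :
    Comb bad ω D (zz bad D k) (esum D (fun b => (ω b : ℝ) / b) (k + 1))
      ((1 + ∑ b ∈ D, (ω b : ℝ)) ^ (k + 1)) := by
  have key : ∀ g : Finset ℕ → ℝ, ∑ S ∈ D.powerset, (if #S = k + 1 then (1 : ℝ) else 0) * g S =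
      ∑ S ∈ powersetCard (k + 1) D, g S := by
    intro g
    rw [powersetCard_eq_filter, sum_filter]
    exact sum_congr rfl fun S _ => by split_ifs <;> simp
  refine ⟨fun S => if #S = k + 1 then 1 else 0, fun s => rfl, ?_, ?_⟩
  · rw [key]; rfl
  · have h1 : ∑ S ∈ D.powerset, |(if #S = k + 1 then (1 : ℝ) else 0)| * ∏ b ∈ S, (ω b : ℝ) =
        esum D (fun b => (ω b : ℝ)) (k + 1) := by
      rw [esum, ← key]
      refine sum_congr rfl fun S _ => ?_
      split_ifs <;> simp
    rw [h1]
    have hx : (0 : ℝ) ≤ ∑ b ∈ D, (ω b : ℝ) := by positivity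
    have h2 := esum_le (D := D) (x := fun b => (ω b : ℝ)) (fun b _ => by positivity) (k + 1)
    refine h2.trans ((div_le_self (by positivity) ?_).trans ?_)
    · exact_mod_cast Nat.factorial_pos (k + 1)
    · exact pow_le_pow_left₀ hx (by linarith) _

lemma sum_allBad (c : Finset ℕ → ℝ) (D : Finset ℕ) (s : ℕ) :
    ∑ S ∈ D.powerset, c S * ind (AllBad bad S s) =
      ∑ S ∈ (D.filter (fun b => bad b s)).powerset, c S := by
  have e : (D.filter (fun b => bad b s)).powerset =
      D.powerset.filter (fun S => AllBad bad S s) := by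
    ext S
    rw [mem_powerset, mem_filter, mem_powerset]
    constructor
    · intro h
      exact ⟨fun b hb => (mem_filter.mp (h hb)).1, fun b hb => (mem_filter.mp (h hb)).2⟩
    · rintro ⟨h1, h2⟩ b hb
      exact mem_filter.mpr ⟨h1 hb, h2 b hb⟩
  rw [e, sum_filter]
  refine sum_congr rfl fun S _ => ?_
  unfold ind
  split_ifs <;> simp

lemma xx_eq (D : Finset ℕ) (s : ℕ) : xx bad D s = ind (∀ b ∈ D, ¬ bad b s) := by
  unfold xx ind
  by_cases h : ∀ b ∈ D, ¬ bad b s
  · rw [if_pos h]
    refine prod_eq_one fun b hb => ?_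
    rw [if_neg (h b hb), sub_zero]
  · rw [if_neg h]
    push Not at h
    obtain ⟨b, hb, hb'⟩ := h
    exact prod_eq_zero hb (by rw [if_pos hb', sub_self])

lemma xx_nonneg (D : Finset ℕ) (s : ℕ) : 0 ≤ xx bad D s := by
  rw [xx_eq]; exact ind_nonneg _

/-- Bonferroni inequalities. -/
lemma bonf (D : Finset ℕ) {k : ℕ} (hk : Even k) (s : ℕ) :
    xx bad D s ≤ yy bad D k s ∧ yy bad D k s ≤ xx bad D s + zz bad D k s ∧ 0 ≤ zz bad D k s := by
  set m := #(D.filter (fun b => bad b s)) with hm
  have hy : yy bad D k s = ∑ j ∈ range (k + 1), (-1) ^ j * (m.choose j : ℝ) := by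
    unfold yy
    rw [sum_allBad, sum_powerset_card_le (g := fun S => (-1 : ℝ) ^ #S)]
    refine sum_congr rfl fun j _ => ?_
    rw [sum_congr rfl (g := fun _ => (-1 : ℝ) ^ j)
      (fun S hS => by rw [(mem_powersetCard.mp hS).2]), sum_const, card_powersetCard, nsmul_eq_mul]
    ring
  have hz : zz bad D k s = (m.choose (k + 1) : ℝ) := by
    unfold zz
    rw [sum_allBad]
    have : ∑ S ∈ (D.filter (fun b => bad b s)).powerset, (if #S = k + 1 then (1 : ℝ) else 0) =
        ∑ S ∈ powersetCard (k + 1) (D.filter (fun b => bad b s)), 1 := by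
      rw [powersetCard_eq_filter, sum_filter]
    rw [this, sum_const, card_powersetCard]
    simp [hm]
  have hz0 : 0 ≤ zz bad D k s := by rw [hz]; positivity
  refine ⟨?_, ?_, hz0⟩
  all_goals
    rw [xx_eq]
    rcases Nat.eq_zero_or_pos m with h0 | h0
    · have h1 : ∀ b ∈ D, ¬ bad b s := by
        rw [hm, card_eq_zero, filter_eq_empty_iff] at h0
        exact fun b hb => h0 hb
      have h2 : yy bad D k s = 1 := by
        rw [hy, h0, sum_eq_single 0]
        · simp
        · intro j _ hj
          rw [Nat.choose_eq_zero_of_lt (by omega)]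
          simp
        · simp
      have h3 : ind (∀ b ∈ D, ¬ bad b s) = 1 := by rw [ind, if_pos h1]
      rw [h2, h3]
      try linarith
    · obtain ⟨n, hn⟩ : ∃ n, m = n + 1 := ⟨m - 1, by omega⟩
      have h1 : ¬ ∀ b ∈ D, ¬ bad b s := by
        intro h
        have : D.filter (fun b => bad b s) = ∅ := filter_eq_empty_iff.mpr (fun b hb => h b hb)
        rw [hm, this] at h0
        simp at h0
      have h2 : yy bad D k s = (n.choose k : ℝ) := by
        rw [hy, hn]
        have := Int.alternating_sum_range_choose_eq_choose (n := n) (m := k)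
        have h3 : ((∑ j ∈ range (k + 1), ((-1) ^ j * (n + 1).choose j : ℤ) : ℤ) : ℝ) =
            (((-1) ^ k * n.choose k : ℤ) : ℝ) := by rw [this]
        push_cast at h3
        rw [h3, hk.neg_one_pow, one_mul]
      have h3 : ind (∀ b ∈ D, ¬ bad b s) = 0 := by simp only [ind, if_neg h1]
      rw [h2, h3]
      try rw [hz, hn, Nat.choose_succ_succ]
      try push_cast
      have h4 : (0 : ℝ) ≤ (n.choose k : ℝ) := by positivity
      have h5 : (0 : ℝ) ≤ (n.choose (k + 1) : ℝ) := by positivity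
      linarith

/-- Hooley's almost pure inequality. -/
lemma hooley {J : ℕ} {x y z : ℕ → ℝ} (hx : ∀ i < J, 0 ≤ x i) (hxy : ∀ i < J, x i ≤ y i)
    (hyz : ∀ i < J, y i ≤ x i + z i) (hz : ∀ i < J, 0 ≤ z i) :
    ∏ i ∈ range J, x i ≤ ∏ i ∈ range J, y i ∧
    ∏ i ∈ range J, y i - ∑ l ∈ range J, ∏ i ∈ range J, (if i = l then z i else y i) ≤
      ∏ i ∈ range J, x i := by
  induction J with
  | zero => simp
  | succ J ih =>
    obtain ⟨ih1, ih2⟩ := ih (fun i hi => hx i (by omega)) (fun i hi => hxy i (by omega))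
      (fun i hi => hyz i (by omega)) (fun i hi => hz i (by omega))
    have p1 : 0 ≤ ∏ i ∈ range J, x i := prod_nonneg fun i hi => hx i (by
      rw [mem_range] at hi; omega)
    have a1 := hx J (by omega)
    have a2 := hxy J (by omega)
    have a3 := hyz J (by omega)
    have a4 := hz J (by omega)
    rw [prod_range_succ, prod_range_succ, sum_range_succ]
    have e1 : ∑ l ∈ range J, ∏ i ∈ range (J + 1), (if i = l then z i else y i) =
        (∑ l ∈ range J, ∏ i ∈ range J, (if i = l then z i else y i)) * y J := by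
      rw [sum_mul]
      refine sum_congr rfl fun l hl => ?_
      rw [mem_range] at hl
      rw [prod_range_succ, if_neg (by omega)]
    have e2 : ∏ i ∈ range (J + 1), (if i = J then z i else y i) =
        (∏ i ∈ range J, y i) * z J := by
      rw [prod_range_succ, if_pos rfl]
      congr 1
      refine prod_congr rfl fun i hi => ?_
      rw [mem_range] at hi
      rw [if_neg (by omega)]
    rw [e1, e2]
    constructor
    · exact mul_le_mul ih1 a2 a1 (le_trans p1 ih1)
    · nlinarith [mul_le_mul_of_nonneg_right ih2 (le_trans a1 a2),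
        mul_le_mul_of_nonneg_left a3 p1, mul_le_mul_of_nonneg_right ih1 a4]

end Pool.Agent.H14Trans
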