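import Pool.Agent.H14Trans.Bonf

/-!
# The Brun-Hooley sieve for pairwise coprime moduli
-/

set_option autoImplicit false

namespace Pool.Agent.H14Trans

open Finset Classical

/-- `s` avoids all the bad classes. -/
def Sift (bad : ℕ → ℕ → Prop) (D : Finset ℕ) (s : ℕ) : Prop := ∀ b ∈ D, ¬ bad b s

lemma exists_c (Λ : ℝ) (hΛ : 0 ≤ Λ) : ∃ c₁ : ℕ, ∀ m ≥ c₁,
    Real.exp (2 * Λ) * (Λ ^ (m + 1) / (m + 1).factorial) ≤ (1 / 8) * (1 / 2) ^ m := by
  have h := FloorSemiring.tendsto_pow_div_factorial_atTop (2 * Λ)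
  have hε : 0 < (1 / 4) * Real.exp (-(2 * Λ)) := by positivity
  obtain ⟨c, hc⟩ := (Filter.eventually_atTop.mp (h.eventually (gt_mem_nhds hε)))
  refine ⟨c, fun m hm => ?_⟩
  have h1 := (hc (m + 1) (by omega)).le
  have e1 : Λ ^ (m + 1) / (m + 1).factorial =
      (2 * Λ) ^ (m + 1) / (m + 1).factorial * (1 / 2) ^ (m + 1) := by
    rw [mul_pow]
    field_simp
    rw [mul_assoc, ← mul_pow]
    norm_num
  rw [e1]
  calc Real.exp (2 * Λ) * ((2 * Λ) ^ (m + 1) / (m + 1).factorial * (1 / 2) ^ (m + 1))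
      ≤ Real.exp (2 * Λ) * ((1 / 4) * Real.exp (-(2 * Λ)) * (1 / 2) ^ (m + 1)) := by
        gcongr
    _ = (Real.exp (2 * Λ) * Real.exp (-(2 * Λ))) * ((1 / 4) * (1 / 2) ^ (m + 1)) := by ring
    _ = (1 / 8) * (1 / 2) ^ m := by
        rw [← Real.exp_add, add_neg_cancel, Real.exp_zero, pow_succ]; ring

lemma growth (A c : ℝ) : ∃ J₀ : ℕ, ∀ J ≥ J₀, A * ((J : ℝ) + 1) * Real.exp (c * J) ≤
    (2 : ℝ) ^ (2 ^ J) := by
  obtain ⟨n, hn⟩ := exists_nat_gt (2 * (|A| + 1) * Real.exp |c|)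
  refine ⟨n + 4, fun J hJ => ?_⟩
  have hJ4 : 4 ≤ J := by omega
  have h1 : J * J ≤ 2 ^ J := by
    have : ∀ k, 4 ≤ k → k * k ≤ 2 ^ k := by
      intro k hk
      induction k, hk using Nat.le_induction with
      | base => norm_num
      | succ k hk ih => rw [pow_succ]; nlinarith
    exact this J hJ4
  have h2 : (J : ℝ) + 1 ≤ 2 ^ J := by
    have : J + 1 ≤ 2 ^ J := Nat.lt_two_pow_self
    exact_mod_cast this
  have h3 : 2 * (|A| + 1) * Real.exp |c| ≤ 2 ^ J := by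
    have : (n : ℝ) ≤ 2 ^ J := by
      have : n ≤ 2 ^ J := by
        have := Nat.lt_two_pow_self (n := J)
        omega
      exact_mod_cast this
    linarith
  have h4 : Real.exp (c * J) ≤ Real.exp |c| ^ J := by
    rw [← Real.exp_nat_mul, mul_comm (J : ℝ)]
    refine Real.exp_le_exp.mpr (mul_le_mul_of_nonneg_right (le_abs_self c) (by positivity))
  calc A * ((J : ℝ) + 1) * Real.exp (c * J)
      ≤ (|A| + 1) * 2 ^ J * Real.exp |c| ^ J := by
        gcongr
        linarith [le_abs_self A, abs_nonneg A]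
    _ ≤ (|A| + 1) ^ J * 2 ^ J * Real.exp |c| ^ J := by
        gcongr
        exact le_self_pow₀ (by linarith [abs_nonneg A]) (by omega)
    _ = (2 * (|A| + 1) * Real.exp |c|) ^ J := by rw [mul_pow, mul_pow]; ring
    _ ≤ (2 ^ J) ^ J := by gcongr
    _ = 2 ^ (J * J) := by rw [pow_mul]
    _ ≤ 2 ^ (2 ^ J) := pow_le_pow_right₀ (by norm_num) h1

lemma sum_exp_aux (c₁ : ℕ) (J : ℕ) :
    ∑ i ∈ range J, 2 ^ (i + 2) * (2 * (J - i + c₁) + 1) + 8 * J + (8 * c₁ + 20) =
      (8 * c₁ + 20) * 2 ^ J := by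
  induction J with
  | zero => simp
  | succ J ih =>
    rw [sum_range_succ]
    have e : ∑ i ∈ range J, 2 ^ (i + 2) * (2 * (J + 1 - i + c₁) + 1) =
        ∑ i ∈ range J, 2 ^ (i + 2) * (2 * (J - i + c₁) + 1) + ∑ i ∈ range J, 2 ^ (i + 2) * 2 := by
      rw [← sum_add_distrib]
      refine sum_congr rfl fun i hi => ?_
      rw [mem_range] at hi
      have : J + 1 - i = (J - i) + 1 := by omega
      rw [this]; ring
    have e2 : ∑ i ∈ range J, 2 ^ (i + 2) * 2 + 8 = 8 * 2 ^ J := by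
      clear ih e
      induction J with
      | zero => simp
      | succ J ih => rw [sum_range_succ, pow_succ, pow_add]; omega
    rw [e]
    have e3 : J + 1 - J = 1 := by omega
    rw [e3]
    generalize ∑ i ∈ range J, 2 ^ (i + 2) * (2 * (J - i + c₁) + 1) = A at *
    generalize ∑ i ∈ range J, 2 ^ (i + 2) * 2 = S at *
    zify at *
    linear_combination ih + e2

lemma one_sub_ge {x : ℝ} (h0 : 0 ≤ x) (h1 : x ≤ 1 / 2) : Real.exp (-(2 * x)) ≤ 1 - x := by
  rw [Real.exp_neg]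
  have h2 : 1 + 2 * x ≤ Real.exp (2 * x) := by
    have := Real.add_one_le_exp (2 * x); linarith
  have h3 : 0 < 1 + 2 * x := by linarith
  calc (Real.exp (2 * x))⁻¹ ≤ (1 + 2 * x)⁻¹ := inv_anti₀ h3 h2
    _ ≤ 1 - x := by
      rw [inv_le_iff_one_le_mul₀ h3]
      nlinarith

lemma prod_ge_exp {D : Finset ℕ} {x : ℕ → ℝ} (h0 : ∀ b ∈ D, 0 ≤ x b) (h1 : ∀ b ∈ D, x b ≤ 1 / 2) :
    Real.exp (-(2 * ∑ b ∈ D, x b)) ≤ ∏ b ∈ D, (1 - x b) := by
  rw [mul_sum, ← sum_neg_distrib, Real.exp_sum]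
  exact prod_le_prod (fun b _ => (Real.exp_pos _).le) (fun b hb => one_sub_ge (h0 b hb) (h1 b hb))

/-- the range of moduli between consecutive squares -/
def lay (y₀ : ℕ) (D : Finset ℕ) (i : ℕ) : Finset ℕ :=
  D.filter (fun b => y₀ ^ (2 ^ i) < b ∧ b ≤ y₀ ^ (2 ^ (i + 1)))

lemma lay_disjoint {y₀ : ℕ} (hy : 1 ≤ y₀) (D : Finset ℕ) {i j : ℕ} (hij : i ≠ j) :
    Disjoint (lay y₀ D i) (lay y₀ D j) := by
  have key : ∀ i j, i < j → Disjoint (lay y₀ D i) (lay y₀ D j) := by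
    intro i j hij
    rw [disjoint_left]
    intro b hb hb'
    simp only [lay, mem_filter] at hb hb'
    have : y₀ ^ (2 ^ (i + 1)) ≤ y₀ ^ (2 ^ j) :=
      Nat.pow_le_pow_right hy (Nat.pow_le_pow_right (by norm_num) (by omega))
    omega
  rcases lt_or_gt_of_ne hij with h | h
  · exact key i j h
  · exact (key j i h).symm

lemma lay_union {y₀ J : ℕ} {D : Finset ℕ} (hD : ∀ b ∈ D, b ≤ y₀ ^ (2 ^ J)) :
    D = D.filter (fun b => b ≤ y₀) ∪ (range J).biUnion (lay y₀ D) := by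
  ext b
  simp only [mem_union, mem_filter, mem_biUnion, mem_range, lay]
  constructor
  · intro hb
    by_cases h : b ≤ y₀
    · exact Or.inl ⟨hb, h⟩
    · right
      have h1 : ∃ i, b ≤ y₀ ^ (2 ^ i) := ⟨J, hD b hb⟩
      have h2 := Nat.find_spec h1
      have h3 : Nat.find h1 ≤ J := Nat.find_min' h1 (hD b hb)
      have h4 : Nat.find h1 ≠ 0 := by
        intro h0
        rw [h0] at h2
        simp at h2
        exact h h2
      obtain ⟨i, hi⟩ := Nat.exists_eq_succ_of_ne_zero h4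
      refine ⟨i, by omega, hb, ?_, ?_⟩
      · have := Nat.find_min h1 (m := i) (by omega)
        omega
      · rw [hi] at h2; exact h2
  · rintro (⟨h, _⟩ | ⟨i, _, h, _⟩) <;> exact h

lemma lay_disjoint_base {y₀ J : ℕ} (hy : 1 ≤ y₀) (D : Finset ℕ) :
    Disjoint (D.filter (fun b => b ≤ y₀)) ((range J).biUnion (lay y₀ D)) := by
  rw [disjoint_left]
  intro b hb hb'
  simp only [mem_filter, mem_biUnion, mem_range, lay] at hb hb'
  obtain ⟨i, _, _, h, _⟩ := hb'
  have : y₀ ^ 1 ≤ y₀ ^ (2 ^ i) := Nat.pow_le_pow_right hy Nat.one_le_two_pow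
  rw [pow_one] at this
  omega

/-- Fundamental lemma (crude form). -/
theorem fundamental (κ : ℕ) (C₀ : ℝ) (hC₀ : 0 ≤ C₀) : ∃ s₁ : ℕ, 2 ≤ s₁ ∧ ∀ y₀ : ℕ, 2 * κ + 2 ≤ y₀ →
    ∃ J₀ : ℕ, ∀ J ≥ J₀, ∀ (bad : ℕ → ℕ → Prop) (ω : ℕ → ℕ) (D : Finset ℕ), Good bad ω D →
      (∀ b ∈ D, ω b ≤ κ ∧ ω b < b) → (∀ b ∈ D, b ≤ y₀ ^ (2 ^ J)) →
      (∀ i < J, ∑ b ∈ lay y₀ D i, (1 : ℝ) / b ≤ C₀) →
      1 ≤ (∏ b ∈ D, (1 - (ω b : ℝ) / b)) * (y₀ : ℝ) ^ (2 ^ J) ∧
      ∀ N : ℕ, (y₀ ^ (2 ^ J)) ^ s₁ ≤ N →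
        N * (∏ b ∈ D, (1 - (ω b : ℝ) / b)) / 2 ≤ (#((range N).filter (Sift bad D)) : ℝ) ∧
        (#((range N).filter (Sift bad D)) : ℝ) ≤ 2 * N * ∏ b ∈ D, (1 - (ω b : ℝ) / b) := by
  set Λ : ℝ := κ * C₀ with hΛdef
  have hΛ : 0 ≤ Λ := by positivity
  obtain ⟨c₁, hc₁⟩ := exists_c Λ hΛ
  refine ⟨8 * c₁ + 21, by omega, fun y₀ hy₀ => ?_⟩
  obtain ⟨J₀, hJ₀⟩ := growth (8 * (1 + κ) ^ (y₀ + 1) * (y₀ : ℝ) ^ (y₀ + 1)) (2 * Λ)
  refine ⟨J₀, fun J hJ bad ω D hG hω hb hmass => ?_⟩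
  have hgrow := hJ₀ J hJ
  have hy1 : 1 ≤ y₀ := by omega
  have hy2 : (2 : ℝ) ≤ y₀ := by
    have : 2 ≤ y₀ := by omega
    exact_mod_cast this
  -- the pieces
  set B := D.filter (fun b => b ≤ y₀) with hB
  have hDeq := lay_union (y₀ := y₀) (J := J) hb
  have hdB := lay_disjoint_base (J := J) hy1 D
  have hGB : Good bad ω B := hG.mono (filter_subset _ _)
  have hlaysub : ∀ i, lay y₀ D i ⊆ D := fun i => filter_subset _ _
  have hGi : ∀ i, Good bad ω (lay y₀ D i) := fun i => hG.mono (hlaysub i)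
  set k : ℕ → ℕ := fun i => 2 * (J - i + c₁) with hk
  set V : ℕ → ℝ := fun i => ∏ b ∈ lay y₀ D i, (1 - (ω b : ℝ) / b) with hV
  set VB : ℝ := ∏ b ∈ B, (1 - (ω b : ℝ) / b) with hVB
  have hVtot : ∏ b ∈ D, (1 - (ω b : ℝ) / b) = VB * ∏ i ∈ range J, V i := by
    conv_lhs => rw [hDeq]
    rw [prod_union hdB, prod_biUnion]
    intro i _ j _ hij
    exact lay_disjoint hy1 D hij
  have hxtot : ∀ s, ind (Sift bad D s) = xx bad B s * ∏ i ∈ range J, xx bad (lay y₀ D i) s := by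
    intro s
    have : ind (Sift bad D s) = xx bad D s := by rw [xx_eq]; rfl
    rw [this]
    unfold xx
    conv_lhs => rw [hDeq]
    rw [prod_union hdB, prod_biUnion]
    intro i _ j _ hij
    exact lay_disjoint hy1 D hij
  -- combinations
  have hcombx : ∀ i, Comb bad ω (lay y₀ D i) (xx bad (lay y₀ D i)) (V i)
      (∏ b ∈ lay y₀ D i, (1 + (ω b : ℝ))) := fun i => comb_full _
  choose τ hτ using fun i => comb_yy (bad := bad) (ω := ω) (lay y₀ D i) (k i)
  set ζ : ℕ → ℝ := fun i => esum (lay y₀ D i) (fun b => (ω b : ℝ) / b) (k i + 1) with hζ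
  set W : ℕ → ℝ := fun i => 1 + ∑ b ∈ lay y₀ D i, (ω b : ℝ) with hW
  have hz : ∀ i, Comb bad ω (lay y₀ D i) (zz bad (lay y₀ D i) (k i)) (ζ i) (W i ^ (k i + 1)) :=
    fun i => comb_zz _ _
  have hkev : ∀ i, Even (k i) := fun i => even_two_mul _
  have hVτ : ∀ i, V i ≤ τ i := fun i =>
    (hcombx i).mono (hGi i) (hτ i) (hGi i) (fun s => (bonf _ (hkev i) s).1)
  have hτV : ∀ i, τ i ≤ V i + ζ i := fun i =>
    (hτ i).mono (hGi i) ((hcombx i).add (hz i)) (hGi i) (fun s => (bonf _ (hkev i) s).2.1)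
  -- bounds in one layer
  have hbpos : ∀ b ∈ D, (0 : ℝ) < b := fun b hb' => by exact_mod_cast hG.pos b hb'
  have hx0 : ∀ i, ∀ b ∈ lay y₀ D i, 0 ≤ (ω b : ℝ) / b := fun i b hb' => by positivity
  have hx1 : ∀ i, ∀ b ∈ lay y₀ D i, (ω b : ℝ) / b ≤ 1 / 2 := by
    intro i b hb'
    have h1 := hb'
    rw [lay, mem_filter] at h1
    have h2 : y₀ ^ 1 ≤ y₀ ^ (2 ^ i) := Nat.pow_le_pow_right hy1 Nat.one_le_two_pow
    rw [pow_one] at h2
    have h3 := (hω b h1.1).1
    have h4 : (ω b : ℝ) * 2 ≤ b := by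
      have : ω b * 2 ≤ b := by omega
      exact_mod_cast this
    rw [div_le_iff₀ (hbpos b h1.1)]
    linarith
  have hL : ∀ i < J, ∑ b ∈ lay y₀ D i, (ω b : ℝ) / b ≤ Λ := by
    intro i hi
    calc ∑ b ∈ lay y₀ D i, (ω b : ℝ) / b ≤ ∑ b ∈ lay y₀ D i, κ * ((1 : ℝ) / b) := by
          refine sum_le_sum fun b hb' => ?_
          rw [div_eq_mul_one_div]
          have : (ω b : ℝ) ≤ κ := by exact_mod_cast (hω b (hlaysub i hb')).1
          exact mul_le_mul_of_nonneg_right this (by positivity)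
      _ = κ * ∑ b ∈ lay y₀ D i, (1 : ℝ) / b := by rw [mul_sum]
      _ ≤ Λ := mul_le_mul_of_nonneg_left (hmass i hi) (by positivity)
  have hVi : ∀ i < J, Real.exp (-(2 * Λ)) ≤ V i := by
    intro i hi
    refine le_trans ?_ (prod_ge_exp (hx0 i) (hx1 i))
    exact Real.exp_le_exp.mpr (by linarith [hL i hi])
  have hVpos : ∀ i < J, 0 < V i := fun i hi => lt_of_lt_of_le (Real.exp_pos _) (hVi i hi)
  set ε : ℕ → ℝ := fun i => (1 / 8) * (1 / 2) ^ (J - i) with hε
  have hεpos : ∀ i, 0 < ε i := fun i => by positivity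
  have hζε : ∀ i < J, ζ i ≤ ε i * V i := by
    intro i hi
    have h1 : ζ i ≤ Λ ^ (k i + 1) / (k i + 1).factorial := by
      refine (esum_le (hx0 i) _).trans ?_
      gcongr
      exact hL i hi
    have h2 := hc₁ (k i) (by simp only [hk]; omega)
    have h3 : ((1 : ℝ) / 2) ^ (k i) ≤ (1 / 2) ^ (J - i) :=
      pow_le_pow_of_le_one (by norm_num) (by norm_num) (by simp only [hk]; omega)
    have h4 : Real.exp (2 * Λ) * ζ i ≤ ε i := by
      calc Real.exp (2 * Λ) * ζ i ≤ Real.exp (2 * Λ) * (Λ ^ (k i + 1) / (k i + 1).factorial) := by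
            gcongr
        _ ≤ (1 / 8) * (1 / 2) ^ (k i) := h2
        _ ≤ ε i := by simp only [hε]; gcongr
    have h5 : ζ i ≤ ε i * Real.exp (-(2 * Λ)) := by
      rw [Real.exp_neg, ← div_eq_mul_inv, le_div_iff₀ (Real.exp_pos _)]
      linarith
    exact h5.trans (mul_le_mul_of_nonneg_left (hVi i hi) (hεpos i).le)
  have hζ0 : ∀ i, 0 ≤ ζ i := fun i => esum_nonneg (hx0 i) _
  have hεsum : ∑ i ∈ range J, ε i ≤ 1 / 8 := by
    have h1 : ∀ n : ℕ, ∑ i ∈ range n, ((1 : ℝ) / 2) ^ (n - i) ≤ 1 := by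
      intro n
      induction n with
      | zero => simp
      | succ n ih =>
        rw [sum_range_succ]
        have : ∑ i ∈ range n, ((1 : ℝ) / 2) ^ (n + 1 - i) =
            (1 / 2) * ∑ i ∈ range n, ((1 : ℝ) / 2) ^ (n - i) := by
          rw [mul_sum]
          refine sum_congr rfl fun i hi => ?_
          rw [mem_range] at hi
          rw [show n + 1 - i = (n - i) + 1 by omega, pow_succ]; ring
        rw [this, show n + 1 - n = 1 by omega]
        linarith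
    simp only [hε]
    rw [← mul_sum]
    linarith [h1 J]
  -- products
  set PV : ℝ := ∏ i ∈ range J, V i with hPV
  set Pτ : ℝ := ∏ i ∈ range J, τ i with hPτ
  have hmem : ∀ i ∈ range J, i < J := fun i hi => mem_range.mp hi
  have hPVpos : 0 < PV := prod_pos fun i hi => hVpos i (hmem i hi)
  have hPVτ : PV ≤ Pτ := prod_le_prod (fun i hi => (hVpos i (hmem i hi)).le) (fun i _ => hVτ i)
  have hτpos : ∀ i < J, 0 < τ i := fun i hi => lt_of_lt_of_le (hVpos i hi) (hVτ i)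
  have hPτV : Pτ ≤ (5 / 4) * PV := by
    calc Pτ ≤ ∏ i ∈ range J, (V i * Real.exp (ε i)) := by
          refine prod_le_prod (fun i hi => (hτpos i (hmem i hi)).le) (fun i hi => ?_)
          have h1 := hτV i
          have h2 := hζε i (hmem i hi)
          have h3 := Real.add_one_le_exp (ε i)
          have h4 := hVpos i (hmem i hi)
          nlinarith
      _ = PV * Real.exp (∑ i ∈ range J, ε i) := by rw [prod_mul_distrib, Real.exp_sum]
      _ ≤ PV * Real.exp (1 / 8) := by gcongr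
      _ ≤ (5 / 4) * PV := by
          have h1 : Real.exp (1 / 8) ≤ 5 / 4 := by
            have h2 : (1 : ℝ) - 1 / 8 ≤ Real.exp (-(1 / 8)) := by
              have := Real.add_one_le_exp (-(1 / 8 : ℝ)); linarith
            rw [Real.exp_neg] at h2
            have h3 := Real.exp_pos (1 / 8 : ℝ)
            rw [le_inv_comm₀ (by norm_num) h3] at h2
            refine h2.trans (by norm_num)
          nlinarith
  -- the error terms
  have hW1 : ∀ i, 1 ≤ W i := fun i => by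
    simp only [hW]; have : (0 : ℝ) ≤ ∑ b ∈ lay y₀ D i, (ω b : ℝ) := by positivity
    linarith
  have hWle : ∀ i, W i ≤ (y₀ : ℝ) ^ (2 ^ (i + 2)) := by
    intro i
    have h1 : ∑ b ∈ lay y₀ D i, ω b ≤ κ * y₀ ^ (2 ^ (i + 1)) := by
      have h2 : #(lay y₀ D i) ≤ y₀ ^ (2 ^ (i + 1)) := by
        have h3 : lay y₀ D i ⊆ Finset.Ioc 0 (y₀ ^ (2 ^ (i + 1))) := by
          intro b hb'
          rw [mem_Ioc]
          refine ⟨hG.pos b (hlaysub i hb'), ?_⟩
          rw [lay, mem_filter] at hb'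
          exact hb'.2.2
        simpa using card_le_card h3
      calc ∑ b ∈ lay y₀ D i, ω b ≤ ∑ b ∈ lay y₀ D i, κ :=
            sum_le_sum fun b hb' => (hω b (hlaysub i hb')).1
        _ = #(lay y₀ D i) * κ := by rw [sum_const, smul_eq_mul]
        _ ≤ κ * y₀ ^ (2 ^ (i + 1)) := by rw [mul_comm]; gcongr
    have h4 : 1 + ∑ b ∈ lay y₀ D i, ω b ≤ y₀ ^ (2 ^ (i + 2)) := by
      have h5 : κ + 1 ≤ y₀ ^ (2 ^ (i + 1)) := by
        have : y₀ ^ 1 ≤ y₀ ^ (2 ^ (i + 1)) := Nat.pow_le_pow_right hy1 Nat.one_le_two_pow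
        rw [pow_one] at this
        omega
      have h6 : y₀ ^ (2 ^ (i + 2)) = y₀ ^ (2 ^ (i + 1)) * y₀ ^ (2 ^ (i + 1)) := by
        rw [← pow_add]; congr 1; rw [pow_succ 2 (i + 1)]; ring
      rw [h6]
      have h7 : 1 ≤ y₀ ^ (2 ^ (i + 1)) := Nat.one_le_pow _ _ (by omega)
      nlinarith
    simp only [hW]
    exact_mod_cast h4
  set PW : ℝ := ∏ i ∈ range J, W i ^ (k i + 1) with hPW
  have hPW1 : PW ≤ ((y₀ : ℝ) ^ (2 ^ J)) ^ (8 * c₁ + 20) := by
    calc PW ≤ ∏ i ∈ range J, ((y₀ : ℝ) ^ (2 ^ (i + 2))) ^ (k i + 1) := by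
          refine prod_le_prod (fun i _ => by
            have := hW1 i
            positivity) (fun i _ => ?_)
          exact pow_le_pow_left₀ (by linarith [hW1 i]) (hWle i) _
      _ = (y₀ : ℝ) ^ (∑ i ∈ range J, 2 ^ (i + 2) * (k i + 1)) := by
          rw [← prod_pow_eq_pow_sum]
          refine prod_congr rfl fun i _ => ?_
          rw [pow_mul]
      _ ≤ (y₀ : ℝ) ^ (2 ^ J * (8 * c₁ + 20)) := by
          refine pow_le_pow_right₀ (by linarith) ?_
          have := sum_exp_aux c₁ J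
          simp only [hk]
          nlinarith
      _ = ((y₀ : ℝ) ^ (2 ^ J)) ^ (8 * c₁ + 20) := by rw [pow_mul]
  have hPWτ : ∏ i ∈ range J, W i ^ (k i) ≤ PW :=
    prod_le_prod (fun i _ => by have := hW1 i; positivity)
      (fun i _ => pow_le_pow_right₀ (hW1 i) (by omega))
  have hPWl : ∀ l, ∏ i ∈ range J, (if i = l then W i ^ (k i + 1) else W i ^ (k i)) ≤ PW := by
    intro l
    refine prod_le_prod (fun i _ => by have := hW1 i; split_ifs <;> positivity) (fun i _ => ?_)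
    split_ifs
    · exact le_rfl
    · exact pow_le_pow_right₀ (hW1 i) (by omega)
  set RB : ℝ := ∏ b ∈ B, (1 + (ω b : ℝ)) with hRB
  have hcB : #B ≤ y₀ := by
    have h3 : B ⊆ Finset.Ioc 0 y₀ := by
      intro b hb'
      rw [hB, mem_filter] at hb'
      rw [mem_Ioc]
      exact ⟨hG.pos b hb'.1, hb'.2⟩
    simpa using card_le_card h3
  have hRB1 : RB ≤ (1 + (κ : ℝ)) ^ (y₀ + 1) := by
    calc RB ≤ ∏ b ∈ B, (1 + (κ : ℝ)) := by
          refine prod_le_prod (fun b _ => by positivity) (fun b hb' => ?_)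
          have : (ω b : ℝ) ≤ κ := by exact_mod_cast (hω b (mem_filter.mp hb').1).1
          linarith
      _ = (1 + (κ : ℝ)) ^ #B := by rw [prod_const]
      _ ≤ _ := pow_le_pow_right₀ (by linarith [Nat.cast_nonneg (α := ℝ) κ]) (by omega)
  have hRB0 : 0 ≤ RB := prod_nonneg fun b _ => by positivity
  have hVB0 : 1 / (y₀ : ℝ) ^ (y₀ + 1) ≤ VB := by
    calc 1 / (y₀ : ℝ) ^ (y₀ + 1) ≤ (1 / (y₀ : ℝ)) ^ #B := by
          rw [one_div_pow]
          refine one_div_le_one_div_of_le (by positivity) (pow_le_pow_right₀ (by linarith) (by omega))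
      _ = ∏ b ∈ B, (1 / (y₀ : ℝ)) := by rw [prod_const]
      _ ≤ VB := by
          refine prod_le_prod (fun b _ => by positivity) (fun b hb' => ?_)
          rw [hB, mem_filter] at hb'
          have h1 := (hω b hb'.1).2
          have h2 := hbpos b hb'.1
          have h3 : (ω b : ℝ) + 1 ≤ b := by exact_mod_cast h1
          have h4 : (b : ℝ) ≤ y₀ := by exact_mod_cast hb'.2
          calc 1 / (y₀ : ℝ) ≤ 1 / b := one_div_le_one_div_of_le h2 h4
            _ ≤ 1 - (ω b : ℝ) / b := by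
              rw [le_sub_iff_add_le, ← add_div, div_le_one h2]; linarith
  have hVBpos : 0 < VB := lt_of_lt_of_le (by positivity) hVB0
  have hPVlow : Real.exp (-(2 * Λ * J)) ≤ PV := by
    calc Real.exp (-(2 * Λ * J)) = ∏ i ∈ range J, Real.exp (-(2 * Λ)) := by
          rw [prod_const, card_range, ← Real.exp_nat_mul]; congr 1; ring
      _ ≤ PV := prod_le_prod (fun i _ => (Real.exp_pos _).le) (fun i hi => hVi i (hmem i hi))
  -- the key numeric inequality
  have hkey : 8 * RB * ((J : ℝ) + 1) ≤ VB * PV * (y₀ : ℝ) ^ (2 ^ J) := by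
    have h1 : (2 : ℝ) ^ (2 ^ J) ≤ (y₀ : ℝ) ^ (2 ^ J) := pow_le_pow_left₀ (by norm_num) hy2 _
    have h2 := hgrow.trans h1
    have h3 : 8 * RB * ((J : ℝ) + 1) ≤
        8 * (1 + (κ : ℝ)) ^ (y₀ + 1) * ((J : ℝ) + 1) := by gcongr
    refine h3.trans ?_
    have h4 : (1 / (y₀ : ℝ) ^ (y₀ + 1)) * Real.exp (-(2 * Λ * J)) ≤ VB * PV := by gcongr
    have h5 : 8 * (1 + (κ : ℝ)) ^ (y₀ + 1) * ((J : ℝ) + 1) =
        (1 / (y₀ : ℝ) ^ (y₀ + 1)) * Real.exp (-(2 * Λ * J)) *
        (8 * (1 + κ) ^ (y₀ + 1) * (y₀ : ℝ) ^ (y₀ + 1) * ((J : ℝ) + 1) *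
          Real.exp (2 * Λ * J)) := by
      rw [Real.exp_neg]
      have := Real.exp_pos (2 * Λ * J)
      field_simp
    rw [h5]
    exact mul_le_mul h4 h2 (by positivity) (by positivity)
  have hRB1' : 1 ≤ RB := by
    have : ∏ b ∈ B, (1 : ℝ) ≤ RB := prod_le_prod (fun _ _ => by norm_num) (fun b _ => by
      have : (0 : ℝ) ≤ ω b := by positivity
      linarith)
    simpa using this
  constructor
  · rw [hVtot]
    have h1 : (1 : ℝ) ≤ 8 * RB * ((J : ℝ) + 1) := by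
      have : (0 : ℝ) ≤ J := by positivity
      nlinarith
    linarith
  intro N hN
  have hN' : ((y₀ : ℝ) ^ (2 ^ J)) ^ (8 * c₁ + 21) ≤ N := by exact_mod_cast hN
  rw [hVtot]
  have hcount : (#((range N).filter (Sift bad D)) : ℝ) =
      ∑ s ∈ range N, xx bad B s * ∏ i ∈ range J, xx bad (lay y₀ D i) s := by
    rw [← sum_ind]
    exact sum_congr rfl fun s _ => hxtot s
  -- error bound
  have hGtot : Good bad ω (B ∪ (range J).biUnion (lay y₀ D)) := by rw [← hDeq]; exact hG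
  have hdl : ∀ i < J, ∀ j < J, i ≠ j → Disjoint (lay y₀ D i) (lay y₀ D j) :=
    fun i _ j _ hij => lay_disjoint hy1 D hij
  have herr : RB * PW * ((J : ℝ) + 1) ≤ N * (VB * PV) / 8 := by
    have hw1 : (1 : ℝ) ≤ (y₀ : ℝ) ^ (2 ^ J) := one_le_pow₀ (by linarith)
    set w : ℝ := (y₀ : ℝ) ^ (2 ^ J) with hw
    have h1 : RB * PW * ((J : ℝ) + 1) ≤ RB * w ^ (8 * c₁ + 20) * ((J : ℝ) + 1) := by gcongr
    refine h1.trans ?_
    have h2 : RB * w ^ (8 * c₁ + 20) * ((J : ℝ) + 1) =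
        w ^ (8 * c₁ + 20) * (8 * RB * ((J : ℝ) + 1)) / 8 := by ring
    rw [h2]
    have h3 : w ^ (8 * c₁ + 20) * (8 * RB * ((J : ℝ) + 1)) ≤
        w ^ (8 * c₁ + 20) * (VB * PV * w) := by gcongr
    have h4 : w ^ (8 * c₁ + 20) * (VB * PV * w) = w ^ (8 * c₁ + 21) * (VB * PV) := by ring
    have h5 : w ^ (8 * c₁ + 21) * (VB * PV) ≤ N * (VB * PV) := by gcongr
    linarith
  have hfull : Comb bad ω B (xx bad B) VB RB := comb_full B
  have hcombτ := hfull.mul (Comb.prod (J := J) (fun i _ => hτ i) hdl) hdB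
  have hcomb1 := hcombτ.sum hGtot N
  have hJ0 : (0 : ℝ) ≤ J := by positivity
  have hPW0 : 0 ≤ PW := prod_nonneg fun i _ => by have := hW1 i; positivity
  constructor
  · -- lower bound
    have hlow : ∀ s, xx bad B s * ∏ i ∈ range J, yy bad (lay y₀ D i) (k i) s -
        ∑ l ∈ range J, xx bad B s * ∏ i ∈ range J,
          (if i = l then zz bad (lay y₀ D i) (k i) s else yy bad (lay y₀ D i) (k i) s) ≤
        xx bad B s * ∏ i ∈ range J, xx bad (lay y₀ D i) s := by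
      intro s
      have h1 := (hooley (J := J) (x := fun i => xx bad (lay y₀ D i) s)
        (y := fun i => yy bad (lay y₀ D i) (k i) s) (z := fun i => zz bad (lay y₀ D i) (k i) s)
        (fun i _ => xx_nonneg _ _) (fun i _ => (bonf _ (hkev i) s).1)
        (fun i _ => (bonf _ (hkev i) s).2.1) (fun i _ => (bonf _ (hkev i) s).2.2)).2
      have h2 := mul_le_mul_of_nonneg_left h1 (xx_nonneg (bad := bad) B s)
      rw [← mul_sum, ← mul_sub]
      exact h2
    have hcombl : ∀ l, |∑ s ∈ range N, xx bad B s * ∏ i ∈ range J,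
          (if i = l then zz bad (lay y₀ D i) (k i) s else yy bad (lay y₀ D i) (k i) s) -
          N * (VB * ∏ i ∈ range J, (if i = l then ζ i else τ i))| ≤ RB * PW := by
      intro l
      have h1 : ∀ i < J, Comb bad ω (lay y₀ D i)
          (fun s => if i = l then zz bad (lay y₀ D i) (k i) s else yy bad (lay y₀ D i) (k i) s)
          (if i = l then ζ i else τ i)
          (if i = l then W i ^ (k i + 1) else W i ^ (k i)) := by
        intro i _
        by_cases h : i = l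
        · simp only [if_pos h]; exact hz i
        · simp only [if_neg h]; exact hτ i
      have h2 := (hfull.mul (Comb.prod h1 hdl) hdB).weaken
        (mul_le_mul_of_nonneg_left (hPWl l) hRB0)
      exact h2.sum hGtot N
    have hlterm : ∀ l ∈ range J, ∏ i ∈ range J, (if i = l then ζ i else τ i) ≤ ε l * Pτ := by
      intro l hl
      have h1 : ∏ i ∈ range J, (if i = l then ζ i else τ i) =
          ζ l * ∏ i ∈ (range J).erase l, τ i := by
        rw [← mul_prod_erase _ _ hl, if_pos rfl]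
        congr 1
        refine prod_congr rfl fun i hi => ?_
        rw [if_neg (ne_of_mem_erase hi)]
      have h2 : Pτ = τ l * ∏ i ∈ (range J).erase l, τ i := by
        rw [hPτ, mul_prod_erase _ _ hl]
      rw [h1, h2]
      have h3 : 0 ≤ ∏ i ∈ (range J).erase l, τ i :=
        prod_nonneg fun i hi => (hτpos i (hmem i (mem_of_mem_erase hi))).le
      have h4 : ζ l ≤ ε l * τ l := (hζε l (hmem l hl)).trans
        (mul_le_mul_of_nonneg_left (hVτ l) (hεpos l).le)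
      nlinarith [mul_le_mul_of_nonneg_right h4 h3]
    rw [hcount]
    have h1 : ∑ s ∈ range N, xx bad B s * ∏ i ∈ range J, yy bad (lay y₀ D i) (k i) s -
        ∑ l ∈ range J, ∑ s ∈ range N, xx bad B s * ∏ i ∈ range J,
          (if i = l then zz bad (lay y₀ D i) (k i) s else yy bad (lay y₀ D i) (k i) s) ≤
        ∑ s ∈ range N, xx bad B s * ∏ i ∈ range J, xx bad (lay y₀ D i) s := by
      rw [sum_comm, ← sum_sub_distrib]
      exact sum_le_sum fun s _ => hlow s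
    refine le_trans ?_ h1
    have h2 : ∑ l ∈ range J, ∑ s ∈ range N, xx bad B s * ∏ i ∈ range J,
          (if i = l then zz bad (lay y₀ D i) (k i) s else yy bad (lay y₀ D i) (k i) s) ≤
        ∑ l ∈ range J, (N * (VB * (ε l * Pτ)) + RB * PW) := by
      refine sum_le_sum fun l hl => ?_
      have h3 := (abs_le.mp (hcombl l)).2
      have h4 : (N : ℝ) * (VB * ∏ i ∈ range J, (if i = l then ζ i else τ i)) ≤
          N * (VB * (ε l * Pτ)) := by
        have := hlterm l hl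
        gcongr
      linarith
    have h3 : ∑ l ∈ range J, (N * (VB * (ε l * Pτ)) + RB * PW) =
        N * (VB * Pτ) * (∑ l ∈ range J, ε l) + J * (RB * PW) := by
      rw [sum_add_distrib, sum_const, card_range, nsmul_eq_mul, mul_sum]
      congr 1
      exact sum_congr rfl fun l _ => by ring
    have h4 := (abs_le.mp hcomb1).1
    have h5 : RB * ∏ i ∈ range J, W i ^ (k i) ≤ RB * PW := by gcongr
    have hNV : 0 ≤ (N : ℝ) * (VB * Pτ) := by
      have : 0 < Pτ := lt_of_lt_of_le hPVpos hPVτ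
      positivity
    have h6 : (N : ℝ) * (VB * Pτ) * (∑ l ∈ range J, ε l) ≤ N * (VB * Pτ) * (1 / 8) := by gcongr
    have h7 : (N : ℝ) * (VB * PV) ≤ N * (VB * Pτ) := by gcongr
    have h8 : (0 : ℝ) ≤ N * (VB * PV) := by positivity
    rw [h3] at h2
    have h9 : (N : ℝ) * (VB * Pτ) - RB * ∏ i ∈ range J, W i ^ (k i) ≤
        ∑ s ∈ range N, xx bad B s * ∏ i ∈ range J, yy bad (lay y₀ D i) (k i) s := by
      linarith
    nlinarith
  · -- upper bound
    rw [hcount]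
    have h1 : ∑ s ∈ range N, xx bad B s * ∏ i ∈ range J, xx bad (lay y₀ D i) s ≤
        ∑ s ∈ range N, xx bad B s * ∏ i ∈ range J, yy bad (lay y₀ D i) (k i) s := by
      refine sum_le_sum fun s _ => mul_le_mul_of_nonneg_left ?_ (xx_nonneg _ _)
      exact prod_le_prod (fun i _ => xx_nonneg _ _) (fun i _ => (bonf _ (hkev i) s).1)
    refine h1.trans ?_
    have h4 := (abs_le.mp hcomb1).2
    have h5 : RB * ∏ i ∈ range J, W i ^ (k i) ≤ RB * PW := by gcongr
    have h6 : (N : ℝ) * (VB * Pτ) ≤ N * (VB * ((5 / 4) * PV)) := by gcongr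
    have h8 : (0 : ℝ) ≤ N * (VB * PV) := by positivity
    have h9 : RB * PW ≤ RB * PW * ((J : ℝ) + 1) := by
      have : 0 ≤ RB * PW := by positivity
      nlinarith
    have h10 : ∑ s ∈ range N, xx bad B s * ∏ i ∈ range J, yy bad (lay y₀ D i) (k i) s ≤
        N * (VB * Pτ) + RB * ∏ i ∈ range J, W i ^ (k i) := by linarith
    nlinarith

end Pool.Agent.H14Trans
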