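import Pool.Agent.H14Trans.Crt

/-!
# Linear combinations of intersections of congruence conditions
-/

set_option autoImplicit false

namespace Pool.Agent.H14Trans

open Finset Classical

/-- real valued indicator -/
noncomputable def ind (p : Prop) : ℝ := if p then 1 else 0

lemma ind_nonneg (p : Prop) : 0 ≤ ind p := by unfold ind; split_ifs <;> norm_num

lemma ind_le_one (p : Prop) : ind p ≤ 1 := by unfold ind; split_ifs <;> norm_num

lemma ind_and (p q : Prop) : ind (p ∧ q) = ind p * ind q := by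
  unfold ind; by_cases hp : p <;> by_cases hq : q <;> simp [hp, hq]

lemma sum_ind (P : ℕ → Prop) (s : Finset ℕ) : ∑ x ∈ s, ind (P x) = ((s.filter P).card : ℝ) := by
  unfold ind; simp

/-- `f` is a combination of the events `AllBad bad S`, `S ⊆ D`, with density `E` and total weight
at most `R`. -/
def Comb (bad : ℕ → ℕ → Prop) (ω : ℕ → ℕ) (D : Finset ℕ) (f : ℕ → ℝ) (E R : ℝ) : Prop :=
  ∃ c : Finset ℕ → ℝ,
    (∀ s, f s = ∑ S ∈ D.powerset, c S * ind (AllBad bad S s)) ∧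
    E = ∑ S ∈ D.powerset, c S * ∏ b ∈ S, ((ω b : ℝ) / b) ∧
    ∑ S ∈ D.powerset, |c S| * ∏ b ∈ S, (ω b : ℝ) ≤ R

variable {bad : ℕ → ℕ → Prop} {ω : ℕ → ℕ} {D D₁ D₂ : Finset ℕ} {f f₁ f₂ : ℕ → ℝ}
  {E E₁ E₂ R R₁ R₂ : ℝ}

lemma Comb.sum (h : Comb bad ω D f E R) (hD : Good bad ω D) (N : ℕ) :
    |∑ s ∈ range N, f s - N * E| ≤ R := by
  obtain ⟨c, h1, h2, h3⟩ := h
  have e1 : ∑ s ∈ range N, f s - N * E =
      ∑ S ∈ D.powerset, c S * ((((range N).filter (AllBad bad S)).card : ℝ) -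
        N * ∏ b ∈ S, ((ω b : ℝ) / b)) := by
    rw [h2, mul_sum]
    simp_rw [h1]
    rw [sum_comm, ← sum_sub_distrib]
    refine sum_congr rfl fun S _ => ?_
    rw [← mul_sum, sum_ind]
    ring
  rw [e1]
  refine (abs_sum_le_sum_abs _ _).trans (le_trans (sum_le_sum fun S hS => ?_) h3)
  rw [abs_mul]
  exact mul_le_mul_of_nonneg_left ((hD.mono (mem_powerset.mp hS)).count N) (abs_nonneg _)

lemma Comb.nonneg (h : Comb bad ω D f E R) : 0 ≤ R := by
  obtain ⟨c, h1, h2, h3⟩ := h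
  exact le_trans (sum_nonneg fun S _ => mul_nonneg (abs_nonneg _)
    (prod_nonneg fun b _ => by positivity)) h3

lemma Comb.mono (h₁ : Comb bad ω D₁ f₁ E₁ R₁) (hD₁ : Good bad ω D₁)
    (h₂ : Comb bad ω D₂ f₂ E₂ R₂) (hD₂ : Good bad ω D₂) (hle : ∀ s, f₁ s ≤ f₂ s) : E₁ ≤ E₂ := by
  by_contra hcon
  push Not at hcon
  obtain ⟨N, hN⟩ := exists_nat_gt ((R₁ + R₂) / (E₁ - E₂))
  have hpos : 0 < E₁ - E₂ := by linarith
  rw [div_lt_iff₀ hpos] at hN
  have a1 := (abs_le.mp (h₁.sum hD₁ N)).1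
  have a2 := (abs_le.mp (h₂.sum hD₂ N)).2
  have a3 : ∑ s ∈ range N, f₁ s ≤ ∑ s ∈ range N, f₂ s := sum_le_sum fun s _ => hle s
  nlinarith

lemma sum_powerset_union {F : Finset ℕ → Finset ℕ → ℝ} (hd : Disjoint D₁ D₂) :
    ∑ S ∈ (D₁ ∪ D₂).powerset, F (S ∩ D₁) (S ∩ D₂) =
      ∑ S₁ ∈ D₁.powerset, ∑ S₂ ∈ D₂.powerset, F S₁ S₂ := by
  rw [← sum_product']
  refine sum_nbij' (fun S => (S ∩ D₁, S ∩ D₂)) (fun x => x.1 ∪ x.2) ?_ ?_ ?_ ?_ ?_
  · intro S hS
    simp only [mem_product, mem_powerset]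
    exact ⟨inter_subset_right, inter_subset_right⟩
  · intro x hx
    simp only [mem_product, mem_powerset] at hx ⊢
    exact union_subset_union hx.1 hx.2
  · intro S hS
    rw [mem_powerset] at hS
    rw [← inter_union_distrib_left]
    exact inter_eq_left.mpr hS
  · intro x hx
    simp only [mem_product, mem_powerset] at hx
    rw [disjoint_left] at hd
    ext y
    · simp only [mem_inter, mem_union]
      constructor
      · rintro ⟨h1 | h1, h2⟩
        · exact h1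
        · exact absurd (hx.2 h1) (hd h2)
      · intro h1
        exact ⟨Or.inl h1, hx.1 h1⟩
    · simp only [mem_inter, mem_union]
      constructor
      · rintro ⟨h1 | h1, h2⟩
        · exact absurd h2 (hd (hx.1 h1))
        · exact h1
      · intro h1
        exact ⟨Or.inr h1, hx.2 h1⟩
  · intro S _
    rfl

lemma split_powerset (hd : Disjoint D₁ D₂) {S : Finset ℕ} (hS : S ⊆ D₁ ∪ D₂) :
    S = (S ∩ D₁) ∪ (S ∩ D₂) ∧ Disjoint (S ∩ D₁) (S ∩ D₂) := by
  constructor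
  · rw [← inter_union_distrib_left]
    exact (inter_eq_left.mpr hS).symm
  · exact hd.mono inter_subset_right inter_subset_right

lemma Comb.mul (h₁ : Comb bad ω D₁ f₁ E₁ R₁) (h₂ : Comb bad ω D₂ f₂ E₂ R₂)
    (hd : Disjoint D₁ D₂) :
    Comb bad ω (D₁ ∪ D₂) (fun s => f₁ s * f₂ s) (E₁ * E₂) (R₁ * R₂) := by
  have hR₁ := h₁.nonneg
  obtain ⟨c₁, a1, a2, a3⟩ := h₁
  obtain ⟨c₂, b1, b2, b3⟩ := h₂
  refine ⟨fun S => c₁ (S ∩ D₁) * c₂ (S ∩ D₂), ?_, ?_, ?_⟩
  · intro s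
    beta_reduce
    rw [a1, b1, sum_mul_sum, ← sum_powerset_union hd
      (F := fun S₁ S₂ => c₁ S₁ * ind (AllBad bad S₁ s) * (c₂ S₂ * ind (AllBad bad S₂ s)))]
    refine sum_congr rfl fun S hS => ?_
    obtain ⟨e1, e2⟩ := split_powerset hd (mem_powerset.mp hS)
    have e3 : ind (AllBad bad S s) =
        ind (AllBad bad (S ∩ D₁) s) * ind (AllBad bad (S ∩ D₂) s) := by
      rw [← ind_and]
      congr 1
      conv_lhs => rw [e1]
      unfold AllBad
      rw [forall_mem_union]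
    rw [e3]
    ring
  · rw [a2, b2, sum_mul_sum, ← sum_powerset_union hd
      (F := fun S₁ S₂ => c₁ S₁ * (∏ b ∈ S₁, ((ω b : ℝ) / b)) *
        (c₂ S₂ * ∏ b ∈ S₂, ((ω b : ℝ) / b)))]
    refine sum_congr rfl fun S hS => ?_
    obtain ⟨e1, e2⟩ := split_powerset hd (mem_powerset.mp hS)
    have e3 : ∏ b ∈ S, ((ω b : ℝ) / b) =
        (∏ b ∈ S ∩ D₁, ((ω b : ℝ) / b)) * ∏ b ∈ S ∩ D₂, ((ω b : ℝ) / b) := by
      rw [← prod_union e2, ← e1]
    rw [e3]
    ring
  · calc ∑ S ∈ (D₁ ∪ D₂).powerset, |c₁ (S ∩ D₁) * c₂ (S ∩ D₂)| * ∏ b ∈ S, (ω b : ℝ)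
        = ∑ S ∈ (D₁ ∪ D₂).powerset, (|c₁ (S ∩ D₁)| * ∏ b ∈ S ∩ D₁, (ω b : ℝ)) *
            (|c₂ (S ∩ D₂)| * ∏ b ∈ S ∩ D₂, (ω b : ℝ)) := by
          refine sum_congr rfl fun S hS => ?_
          obtain ⟨e1, e2⟩ := split_powerset hd (mem_powerset.mp hS)
          have e3 : ∏ b ∈ S, (ω b : ℝ) =
              (∏ b ∈ S ∩ D₁, (ω b : ℝ)) * ∏ b ∈ S ∩ D₂, (ω b : ℝ) := by
            rw [← prod_union e2, ← e1]
          rw [e3, abs_mul]
          ring
      _ = (∑ S ∈ D₁.powerset, |c₁ S| * ∏ b ∈ S, (ω b : ℝ)) *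
            ∑ S ∈ D₂.powerset, |c₂ S| * ∏ b ∈ S, (ω b : ℝ) := by
          rw [sum_mul_sum, ← sum_powerset_union hd
            (F := fun S₁ S₂ => |c₁ S₁| * (∏ b ∈ S₁, (ω b : ℝ)) *
              (|c₂ S₂| * ∏ b ∈ S₂, (ω b : ℝ)))]
      _ ≤ R₁ * R₂ := by
          refine mul_le_mul a3 b3 ?_ hR₁
          exact sum_nonneg fun S _ => mul_nonneg (abs_nonneg _)
            (prod_nonneg fun b _ => by positivity)

lemma Comb.weaken (h : Comb bad ω D f E R₁) (hR : R₁ ≤ R₂) : Comb bad ω D f E R₂ := by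
  obtain ⟨c, h1, h2, h3⟩ := h
  exact ⟨c, h1, h2, h3.trans hR⟩

lemma comb_one : Comb bad ω ∅ (fun _ => 1) 1 1 := by
  refine ⟨fun _ => 1, ?_, ?_, ?_⟩
  · intro s
    have h : AllBad bad ∅ s := by intro b hb; simp at hb
    rw [powerset_empty, sum_singleton, ind, if_pos h, one_mul]
  · simp
  · simp

/-- a product of combinations over pairwise disjoint moduli sets -/
lemma Comb.prod {J : ℕ} {D : ℕ → Finset ℕ} {f : ℕ → ℕ → ℝ} {E R : ℕ → ℝ}
    (h : ∀ i < J, Comb bad ω (D i) (f i) (E i) (R i))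
    (hd : ∀ i < J, ∀ j < J, i ≠ j → Disjoint (D i) (D j)) :
    Comb bad ω ((range J).biUnion D) (fun s => ∏ i ∈ range J, f i s) (∏ i ∈ range J, E i)
      (∏ i ∈ range J, R i) := by
  induction J with
  | zero => simpa using comb_one
  | succ J ih =>
    have ih' := ih (fun i hi => h i (by omega)) (fun i hi j hj => hd i (by omega) j (by omega))
    have e1 : (range (J + 1)).biUnion D = (range J).biUnion D ∪ D J := by
      rw [range_add_one, biUnion_insert, union_comm]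
    have hdis : Disjoint ((range J).biUnion D) (D J) := by
      rw [disjoint_biUnion_left]
      intro i hi
      rw [mem_range] at hi
      exact hd i (by omega) J (by omega) (by omega)
    have := ih'.mul (h J (by omega)) hdis
    rw [e1]
    simp only [prod_range_succ]
    exact this

lemma prod_ind (S : Finset ℕ) (s : ℕ) : ∏ b ∈ S, ind (bad b s) = ind (AllBad bad S s) := by
  induction S using Finset.induction_on with
  | empty => simp [AllBad, ind]
  | insert a S ha ih =>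
    rw [prod_insert ha, ih, ← ind_and]
    congr 1
    simp [AllBad]

/-- the full inclusion-exclusion -/
lemma comb_full (D : Finset ℕ) :
    Comb bad ω D (fun s => ∏ b ∈ D, (1 - ind (bad b s))) (∏ b ∈ D, (1 - (ω b : ℝ) / b))
      (∏ b ∈ D, (1 + (ω b : ℝ))) := by
  have key : ∀ x : ℕ → ℝ, ∏ b ∈ D, (1 - x b) = ∑ S ∈ D.powerset, (-1) ^ #S * ∏ b ∈ S, x b := by
    intro x
    simp_rw [sub_eq_add_neg]
    rw [prod_one_add]
    refine sum_congr rfl fun S _ => ?_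
    rw [prod_neg]
  refine ⟨fun S => (-1) ^ #S, ?_, ?_, ?_⟩
  · intro s
    beta_reduce
    rw [key]
    simp_rw [prod_ind]
  · rw [key]
  · rw [prod_one_add]
    refine (sum_congr rfl fun S _ => ?_).le
    simp

lemma sum_trunc (D : Finset ℕ) (g : Finset ℕ → ℝ) (k : ℕ) :
    ∑ S ∈ D.powerset, (if #S ≤ k then (-1) ^ #S else 0) * g S =
      ∑ S ∈ D.powerset.filter (fun S => #S ≤ k), (-1) ^ #S * g S := by
  rw [sum_filter]
  refine sum_congr rfl fun S _ => ?_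
  split_ifs <;> simp

end Pool.Agent.H14Trans
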