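import Pool.Agent.H14Trans.Main

/-!
# Corollaries: liminf condition and an example
-/

set_option autoImplicit false

namespace Pool.Agent.H14Trans

open Finset Classical Filter Topology

lemma recip_mono (B : Set ℕ) {x y : ℝ} (h : x ≤ y) : recip B x ≤ recip B y := by
  unfold recip
  refine sum_le_sum_of_subset_of_nonneg ?_ (fun b _ _ => by positivity)
  exact filter_subset_filter _ (range_subset_range.mpr (Nat.ceil_mono h))

lemma recip_nonneg (B : Set ℕ) (x : ℝ) : 0 ≤ recip B x := sum_nonneg fun b _ => by positivity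

/-- The window theorem, with `1` allowed in `B`. -/
theorem window' (n : ℕ) (hn : 1 ≤ n) : ∃ K : ℕ, 2 ≤ K ∧ ∃ η : ℝ, 0 < η ∧ ∃ x₀ : ℝ,
    ∀ B : Set ℕ, (∀ b ∈ B, 1 ≤ b) → (∀ b ∈ B, ∀ c ∈ B, b ≠ c → b.Coprime c) →
      ∀ x : ℝ, x₀ ≤ x → recip B (x ^ K) - recip B x < η →
      ∃ t ≥ 1, ∀ a, 1 ≤ a → a ≤ n → ((∀ b ∈ B, ¬ b ∣ a) ↔ ∀ b ∈ B, ¬ b ∣ a + t) := by
  obtain ⟨K, hK, η, hη, x₀, h⟩ := window n hn
  refine ⟨K, hK, η, hη, x₀, fun B hB hc x hx hw => ?_⟩
  by_cases h1 : 1 ∈ B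
  · refine ⟨1, le_rfl, fun a _ _ => ?_⟩
    constructor
    · intro h2; exact absurd (one_dvd a) (h2 1 h1)
    · intro h2; exact absurd (one_dvd (a + 1)) (h2 1 h1)
  · refine h B (fun b hb => ?_) hc x hx hw
    have h2 := hB b hb
    have h3 : b ≠ 1 := by rintro rfl; exact h1 hb
    omega

/-- If `S(x) ≤ c log log x` for arbitrarily large `x`, with small `c`, then there are light windows.
-/
lemma window_of_small {S : ℝ → ℝ} (hmono : ∀ x y, x ≤ y → S x ≤ S y) (h0 : ∀ x, 0 ≤ S x)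
    {K : ℕ} (hK : 2 ≤ K) {η : ℝ} (hη : 0 < η) (x₁ : ℝ)
    (h : ∀ x₀ : ℝ, ∃ x ≥ x₀, S x ≤ η / (4 * Real.log K) * Real.log (Real.log x)) :
    ∃ x ≥ x₁, S (x ^ K) - S x < η := by
  by_contra hcon
  push Not at hcon
  have hKR : (1 : ℝ) < K := by exact_mod_cast (by omega : 1 < K)
  have hlK : 0 < Real.log K := Real.log_pos hKR
  -- replace `x₁` by something larger than `e`
  set y : ℝ := max x₁ 3 with hy
  have hy3 : 3 ≤ y := le_max_right _ _
  have hy1 : 1 < y := by linarith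
  have hly : 1 < Real.log y := by
    have h1 : Real.exp 1 < y := by have := Real.exp_one_lt_d9; linarith
    calc (1 : ℝ) = Real.log (Real.exp 1) := (Real.log_exp 1).symm
      _ < Real.log y := Real.log_lt_log (Real.exp_pos 1) h1
  have hgrow : ∀ j : ℕ, (j : ℝ) * η ≤ S (y ^ (K ^ j)) := by
    intro j
    induction j with
    | zero => simpa using h0 _
    | succ j ih =>
      have h1 : x₁ ≤ y ^ (K ^ j) :=
        (le_max_left x₁ 3).trans (le_self_pow₀ hy1.le (pow_ne_zero _ (by omega)))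
      have h2 := hcon _ h1
      rw [← pow_mul, ← pow_succ] at h2
      push_cast
      linarith
  set c := η / (4 * Real.log K) with hc
  have hc0 : 0 < c := by positivity
  obtain ⟨j₀, hj₀⟩ := exists_nat_gt (max 2 (4 * c * Real.log (Real.log y) / η))
  obtain ⟨x, hx, hxS⟩ := h (y ^ (K ^ j₀))
  have hx1 : 1 < x := lt_of_lt_of_le (one_lt_pow₀ hy1 (pow_ne_zero _ (by omega))) hx
  have hex : ∃ j : ℕ, x < y ^ (K ^ (j + 1)) := by
    obtain ⟨j, hj⟩ := pow_unbounded_of_one_lt x hy1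
    refine ⟨j, hj.trans_le (pow_le_pow_right₀ hy1.le ?_)⟩
    have : j < K ^ j := Nat.lt_pow_self (by omega)
    calc j ≤ K ^ j := this.le
      _ ≤ K ^ (j + 1) := Nat.pow_le_pow_right (by omega) (by omega)
  set j := Nat.find hex with hj
  have hj1 : x < y ^ (K ^ (j + 1)) := Nat.find_spec hex
  have hj2 : y ^ (K ^ j) ≤ x := by
    rcases Nat.eq_zero_or_pos j with h | h
    · rw [h, pow_zero, pow_one]
      refine le_trans ?_ hx
      exact le_self_pow₀ hy1.le (pow_ne_zero _ (by omega))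
    · have := Nat.find_min hex (m := j - 1) (by omega)
      push Not at this
      rwa [Nat.sub_add_cancel h] at this
  have hjj : j₀ ≤ j := by
    by_contra hlt
    push Not at hlt
    have h1 : y ^ (K ^ (j + 1)) ≤ y ^ (K ^ j₀) :=
      pow_le_pow_right₀ hy1.le (Nat.pow_le_pow_right (by omega) (by omega))
    linarith
  have h1 : (j : ℝ) * η ≤ S x := (hgrow j).trans (hmono _ _ hj2)
  have hlx : 0 < Real.log x := Real.log_pos hx1
  have h2 : Real.log (Real.log x) ≤ (j + 1) * Real.log K + Real.log (Real.log y) := by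
    have h3 : Real.log x ≤ (K : ℝ) ^ (j + 1) * Real.log y := by
      have := Real.log_le_log (by linarith) hj1.le
      rw [Real.log_pow] at this
      push_cast at this
      exact this
    calc Real.log (Real.log x) ≤ Real.log ((K : ℝ) ^ (j + 1) * Real.log y) :=
          Real.log_le_log hlx h3
      _ = (j + 1) * Real.log K + Real.log (Real.log y) := by
          rw [Real.log_mul (by positivity) (by linarith), Real.log_pow]
          push_cast; ring
  have h3 : (j : ℝ) * η ≤ c * ((j + 1) * Real.log K + Real.log (Real.log y)) :=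
    h1.trans (hxS.trans (mul_le_mul_of_nonneg_left h2 hc0.le))
  have h4 : c * Real.log K = η / 4 := by rw [hc]; field_simp
  have hjR : (j₀ : ℝ) ≤ j := by exact_mod_cast hjj
  have h5 : 2 < (j : ℝ) := lt_of_lt_of_le (lt_of_le_of_lt (le_max_left _ _) hj₀) hjR
  have h6 : 4 * c * Real.log (Real.log y) / η < j :=
    lt_of_lt_of_le (lt_of_le_of_lt (le_max_right _ _) hj₀) hjR
  rw [div_lt_iff₀ hη] at h6
  have h7 : c * ((j + 1) * Real.log K + Real.log (Real.log y)) =
      (j + 1) * (η / 4) + c * Real.log (Real.log y) := by rw [← h4]; ring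
  rw [h7] at h3
  nlinarith

/-! ### An example of a set of primes of full logarithmic size with light windows -/

/-- the lower end of the `j`-th removed window -/
def lo (j : ℕ) : ℕ := 2 ^ (2 ^ (j ^ 3))

/-- the upper end of the `j`-th removed window -/
def hi (j : ℕ) : ℕ := 2 ^ (2 ^ (j ^ 3 + j))

/-- all primes outside the windows `[lo j, hi j)`, `j ≥ 1` -/
def exB : Set ℕ := {p | p.Prime ∧ ∀ j, 1 ≤ j → ¬ (lo j ≤ p ∧ p < hi j)}

lemma exB_window {K : ℕ} (hK : 1 ≤ K) (x₀ : ℝ) :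
    ∃ x ≥ x₀, recip exB (x ^ K) - recip exB x = 0 := by
  obtain ⟨j₁, hj₁⟩ := exists_nat_gt x₀
  set j := max (j₁ + 1) K with hj
  have hjj : j₁ ≤ j := by omega
  have hj1 : 1 ≤ j := by omega
  have hKj : K ≤ 2 ^ j := (le_max_right _ _).trans Nat.lt_two_pow_self.le
  refine ⟨(lo j : ℝ), ?_, ?_⟩
  · have h1 : j₁ ≤ lo j := by
      unfold lo
      calc j₁ ≤ j := hjj
        _ = j ^ 1 := (pow_one j).symm
        _ ≤ j ^ 3 := Nat.pow_le_pow_right hj1 (by norm_num)
        _ ≤ 2 ^ (j ^ 3) := Nat.lt_two_pow_self.le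
        _ ≤ _ := Nat.lt_two_pow_self.le
    have : (j₁ : ℝ) ≤ (lo j : ℝ) := by exact_mod_cast h1
    linarith
  · have hpow : (lo j : ℝ) ^ K = ((lo j ^ K : ℕ) : ℝ) := by push_cast; rfl
    have hle : lo j ^ K ≤ hi j := by
      unfold lo hi
      rw [← pow_mul, pow_add]
      exact Nat.pow_le_pow_right (by norm_num) (Nat.mul_le_mul_left _ hKj)
    unfold recip
    rw [hpow, Nat.ceil_natCast, Nat.ceil_natCast]
    have h : lo j ≤ lo j ^ K := Nat.le_self_pow (by omega) _
    rw [sub_eq_zero]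
    refine sum_congr ?_ fun _ _ => rfl
    ext b
    simp only [mem_filter, mem_range]
    constructor
    · rintro ⟨h1, h2⟩
      refine ⟨?_, h2⟩
      by_contra h3
      push Not at h3
      exact h2.2 j hj1 ⟨h3, by omega⟩
    · rintro ⟨h1, h2⟩
      exact ⟨by omega, h2⟩

lemma log2_bounds : (0.69 : ℝ) < Real.log 2 ∧ Real.log 2 < 0.7 := by
  constructor
  · have := Real.log_two_gt_d9; linarith
  · have := Real.log_two_lt_d9; linarith

lemma loglog2_bounds : (-0.5 : ℝ) < Real.log (Real.log 2) ∧ Real.log (Real.log 2) < 0 := by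
  obtain ⟨h1, h2⟩ := log2_bounds
  constructor
  · have h3 := Real.one_sub_inv_le_log_of_pos (x := Real.log 2) (by linarith)
    have h4 : (Real.log 2)⁻¹ < 1.5 := by
      rw [inv_lt_comm₀ (by linarith) (by norm_num)]
      refine lt_trans ?_ h1
      norm_num
    linarith
  · exact Real.log_neg (by linarith) (by linarith)

lemma prime_sum_bound {x : ℝ} (hx : 3 ≤ x) :
    |∑ b ∈ (range ⌈x⌉₊).filter Nat.Prime, (1 : ℝ) / b - Real.log (Real.log x)| ≤ 16 := by
  set m := ⌈x⌉₊ with hm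
  have hmx : x ≤ m := Nat.le_ceil x
  have hmx' : (m : ℝ) < x + 1 := Nat.ceil_lt_add_one (by linarith)
  have hm3 : (3 : ℝ) ≤ m := by linarith
  have hm2 : 2 ≤ m := by
    have : (2 : ℝ) ≤ m := by linarith
    exact_mod_cast this
  have hset : (range m).filter Nat.Prime = (Ico 2 m).filter Nat.Prime := by
    ext p
    simp only [mem_filter, mem_range, mem_Ico]
    constructor
    · rintro ⟨h1, h2⟩; exact ⟨⟨h2.two_le, h1⟩, h2⟩
    · rintro ⟨⟨_, h1⟩, h2⟩; exact ⟨h1, h2⟩
  rw [hset]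
  have h1 := Pool.Agent.Sv.abs_sum_inv_sub_le (n := 2) (m := m) le_rfl hm2
  obtain ⟨l1, l2⟩ := log2_bounds
  obtain ⟨l3, l4⟩ := loglog2_bounds
  have h2 : 9 / Real.log ((2 : ℕ) : ℝ) ≤ 14 := by
    push_cast
    rw [div_le_iff₀ (by linarith)]
    linarith
  have hlx : 1 < Real.log x := by
    have h3 : Real.exp 1 < x := by have := Real.exp_one_lt_d9; linarith
    calc (1 : ℝ) = Real.log (Real.exp 1) := (Real.log_exp 1).symm
      _ < Real.log x := Real.log_lt_log (Real.exp_pos 1) h3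
  have h4 : Real.log (Real.log x) ≤ Real.log (Real.log m) :=
    Real.log_le_log (by linarith) (Real.log_le_log (by linarith) hmx)
  have h5 : Real.log (Real.log m) ≤ Real.log 2 + Real.log (Real.log x) := by
    rw [← Real.log_mul (by norm_num) (by linarith)]
    have h6 : Real.log m ≤ 2 * Real.log x := by
      have h7 : (m : ℝ) ≤ x ^ 2 := by nlinarith
      calc Real.log m ≤ Real.log (x ^ 2) := Real.log_le_log (by linarith) h7
        _ = 2 * Real.log x := by rw [Real.log_pow]; norm_num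
    exact Real.log_le_log (Real.log_pos (by linarith)) h6
  rw [abs_le] at h1 ⊢
  push_cast at h1 h2
  constructor <;> linarith [h1.1, h1.2]

lemma loglog_lo (j : ℕ) : Real.log (Real.log (lo j : ℝ)) =
    (j : ℝ) ^ 3 * Real.log 2 + Real.log (Real.log 2) := by
  obtain ⟨l1, l2⟩ := log2_bounds
  unfold lo
  push_cast
  rw [Real.log_pow, Real.log_mul (by positivity) (by linarith)]
  push_cast
  rw [Real.log_pow]
  push_cast
  ring

lemma loglog_hi (j : ℕ) : Real.log (Real.log (hi j : ℝ)) =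
    ((j : ℝ) ^ 3 + j) * Real.log 2 + Real.log (Real.log 2) := by
  obtain ⟨l1, l2⟩ := log2_bounds
  unfold hi
  push_cast
  rw [Real.log_pow, Real.log_mul (by positivity) (by linarith)]
  push_cast
  rw [Real.log_pow]
  push_cast
  ring

lemma two_le_lo (j : ℕ) : 2 ≤ lo j := by
  unfold lo
  calc 2 = 2 ^ 1 := rfl
    _ ≤ _ := Nat.pow_le_pow_right (by norm_num) Nat.one_le_two_pow

lemma window_sum_le (j : ℕ) :
    ∑ p ∈ (Ico (lo j) (hi j)).filter Nat.Prime, (1 : ℝ) / p ≤ j + 14 := by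
  obtain ⟨l1, l2⟩ := log2_bounds
  have hle : lo j ≤ hi j := by
    unfold lo hi
    exact Nat.pow_le_pow_right (by norm_num) (Nat.pow_le_pow_right (by norm_num) (by omega))
  have h1 := (abs_le.mp (Pool.Agent.Sv.abs_sum_inv_sub_le (n := lo j) (m := hi j)
    (two_le_lo j) hle)).2
  rw [loglog_lo, loglog_hi] at h1
  have h2 : Real.log 2 ≤ Real.log (lo j : ℝ) :=
    Real.log_le_log (by norm_num) (by exact_mod_cast two_le_lo j)
  have h3 : 9 / Real.log (lo j : ℝ) ≤ 14 := by
    rw [div_le_iff₀ (by linarith)]; linarith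
  have h4 : (0 : ℝ) ≤ j := by positivity
  nlinarith

lemma sum_biUnion_le {s : Finset ℕ} {t : ℕ → Finset ℕ} {f : ℕ → ℝ} (hf : ∀ x, 0 ≤ f x) :
    ∑ x ∈ s.biUnion t, f x ≤ ∑ i ∈ s, ∑ x ∈ t i, f x := by
  induction s using Finset.induction_on with
  | empty => simp
  | insert a s ha ih =>
    rw [biUnion_insert, sum_insert ha]
    have h1 := sum_union_inter (s₁ := t a) (s₂ := s.biUnion t) (f := f)
    have h2 : 0 ≤ ∑ x ∈ t a ∩ s.biUnion t, f x := sum_nonneg fun x _ => hf x
    linarith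

lemma removed_le {x : ℝ} {J : ℕ} (hJ : x < lo (J + 1)) :
    ∑ b ∈ (range ⌈x⌉₊).filter Nat.Prime, (1 : ℝ) / b - recip exB x ≤ 15 * (J : ℝ) ^ 2 := by
  have hmono : ∀ i j, i ≤ j → lo i ≤ lo j := fun i j hij =>
    Nat.pow_le_pow_right (by norm_num)
      (Nat.pow_le_pow_right (by norm_num) (Nat.pow_le_pow_left hij 3))
  have hsub : (range ⌈x⌉₊).filter (fun b => b ∈ exB) ⊆ (range ⌈x⌉₊).filter Nat.Prime := by
    intro b hb
    rw [mem_filter] at hb ⊢
    exact ⟨hb.1, hb.2.1⟩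
  have h1 : (range ⌈x⌉₊).filter Nat.Prime \ (range ⌈x⌉₊).filter (fun b => b ∈ exB) ⊆
      (Icc 1 J).biUnion (fun j => (Ico (lo j) (hi j)).filter Nat.Prime) := by
    intro b hb
    obtain ⟨hb1, hb2⟩ := Finset.mem_sdiff.mp hb
    obtain ⟨h2, h3⟩ := Finset.mem_filter.mp hb1
    have h4 : b ∉ exB := fun h => hb2 (Finset.mem_filter.mpr ⟨h2, h⟩)
    have h5 : ∃ j, 1 ≤ j ∧ lo j ≤ b ∧ b < hi j := by
      by_contra hcon
      push Not at hcon
      exact h4 ⟨h3, fun j hj h => absurd h.2 (not_lt.mpr (hcon j hj h.1))⟩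
    obtain ⟨j, hj, hj1, hj2⟩ := h5
    rw [mem_biUnion]
    refine ⟨j, ?_, ?_⟩
    · rw [mem_Icc]
      refine ⟨hj, ?_⟩
      by_contra hcon
      push Not at hcon
      have h6 := hmono (J + 1) j hcon
      rw [mem_range, Nat.lt_ceil] at h2
      have h7 : (lo (J + 1) : ℝ) ≤ b := by exact_mod_cast h6.trans hj1
      linarith
    · rw [mem_filter, mem_Ico]
      exact ⟨⟨hj1, hj2⟩, h3⟩
  have h2 : ∑ b ∈ (range ⌈x⌉₊).filter Nat.Prime, (1 : ℝ) / b - recip exB x =
      ∑ b ∈ (range ⌈x⌉₊).filter Nat.Prime \ (range ⌈x⌉₊).filter (fun b => b ∈ exB),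
        (1 : ℝ) / b := by
    unfold recip
    rw [← sum_sdiff hsub, add_sub_cancel_right]
  rw [h2]
  calc ∑ b ∈ (range ⌈x⌉₊).filter Nat.Prime \ (range ⌈x⌉₊).filter (fun b => b ∈ exB), (1 : ℝ) / b
      ≤ ∑ b ∈ (Icc 1 J).biUnion (fun j => (Ico (lo j) (hi j)).filter Nat.Prime), (1 : ℝ) / b :=
        sum_le_sum_of_subset_of_nonneg h1 (fun b _ _ => by positivity)
    _ ≤ ∑ j ∈ Icc 1 J, ∑ b ∈ (Ico (lo j) (hi j)).filter Nat.Prime, (1 : ℝ) / b :=
        sum_biUnion_le (fun b => by positivity)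
    _ ≤ ∑ j ∈ Icc 1 J, ((J : ℝ) + 14) := by
        refine sum_le_sum fun j hj => (window_sum_le j).trans ?_
        rw [mem_Icc] at hj
        have : (j : ℝ) ≤ J := by exact_mod_cast hj.2
        linarith
    _ = (J : ℝ) * (J + 14) := by
        rw [sum_const, Nat.card_Icc, Nat.add_sub_cancel, nsmul_eq_mul]
    _ ≤ 15 * (J : ℝ) ^ 2 := by
        rcases Nat.eq_zero_or_pos J with h | h
        · subst h; simp
        · have : (1 : ℝ) ≤ J := by exact_mod_cast h
          nlinarith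

lemma exB_asymp : Tendsto (fun x : ℝ => recip exB x / Real.log (Real.log x)) atTop (𝓝 1) := by
  obtain ⟨l1, l2⟩ := log2_bounds
  obtain ⟨l3, l4⟩ := loglog2_bounds
  rw [Metric.tendsto_atTop]
  intro ε hε
  obtain ⟨Jε, hJε⟩ := exists_nat_gt (75 / ε)
  have hJε0 : (0 : ℝ) < Jε := lt_trans (by positivity) hJε
  have hL : Tendsto (fun x : ℝ => Real.log (Real.log x)) atTop atTop :=
    Real.tendsto_log_atTop.comp Real.tendsto_log_atTop
  have hev := hL.eventually (eventually_ge_atTop (1 + 40 / ε + 40 * (Jε : ℝ) ^ 2 / ε))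
  obtain ⟨N, hN⟩ := eventually_atTop.mp hev
  refine ⟨max N 3, fun x hx => ?_⟩
  have hx3 : 3 ≤ x := (le_max_right _ _).trans hx
  have hLx := hN x ((le_max_left _ _).trans hx)
  set L := Real.log (Real.log x) with hLdef
  have hε1 : 0 < 40 / ε := by positivity
  have hε2 : 0 < 40 * (Jε : ℝ) ^ 2 / ε := by positivity
  have hL1 : 1 ≤ L := by linarith
  have hLa : 40 ≤ ε * L := by
    have : 40 / ε ≤ L := by linarith
    rw [div_le_iff₀ hε] at this
    linarith
  have hLb : 40 * (Jε : ℝ) ^ 2 ≤ ε * L := by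
    have : 40 * (Jε : ℝ) ^ 2 / ε ≤ L := by linarith
    rw [div_le_iff₀ hε] at this
    linarith
  -- the number of windows
  have hex : ∃ J : ℕ, x < lo (J + 1) := by
    obtain ⟨J, hJ⟩ := exists_nat_gt x
    refine ⟨J, hJ.trans_le ?_⟩
    have : J ≤ lo (J + 1) := by
      unfold lo
      calc J ≤ J + 1 := by omega
        _ = (J + 1) ^ 1 := (pow_one _).symm
        _ ≤ (J + 1) ^ 3 := Nat.pow_le_pow_right (by omega) (by norm_num)
        _ ≤ 2 ^ ((J + 1) ^ 3) := Nat.lt_two_pow_self.le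
        _ ≤ _ := Nat.lt_two_pow_self.le
    exact_mod_cast this
  set J := Nat.find hex with hJ
  have hJ1 : x < lo (J + 1) := Nat.find_spec hex
  have hJ2 : (lo J : ℝ) ≤ x := by
    rcases Nat.eq_zero_or_pos J with h | h
    · rw [h]
      have : (lo 0 : ℝ) = 2 := by unfold lo; norm_num
      linarith
    · have := Nat.find_min hex (m := J - 1) (by omega)
      push Not at this
      rwa [Nat.sub_add_cancel h] at this
  have hlo : (J : ℝ) ^ 3 * Real.log 2 + Real.log (Real.log 2) ≤ L := by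
    rw [← loglog_lo]
    have h1 : (2 : ℝ) ≤ (lo J : ℝ) := by exact_mod_cast two_le_lo J
    refine Real.log_le_log (Real.log_pos (by linarith)) (Real.log_le_log (by linarith) hJ2)
  have hR := removed_le hJ1
  have hP := abs_le.mp (prime_sum_bound hx3)
  have hle : recip exB x ≤ ∑ b ∈ (range ⌈x⌉₊).filter Nat.Prime, (1 : ℝ) / b := by
    unfold recip
    refine sum_le_sum_of_subset_of_nonneg ?_ (fun b _ _ => by positivity)
    intro b hb
    rw [mem_filter] at hb ⊢
    exact ⟨hb.1, hb.2.1⟩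
  have hJsq : 15 * (J : ℝ) ^ 2 ≤ ε * L / 2 := by
    rcases le_total Jε J with h | h
    · have h1 : (Jε : ℝ) ≤ J := by exact_mod_cast h
      have h2 : 75 < ε * J := by
        rw [div_lt_iff₀ hε] at hJε
        nlinarith
      have h3 : (J : ℝ) ^ 3 ≤ 2.2 * L := by nlinarith [pow_nonneg (Nat.cast_nonneg (α := ℝ) J) 3]
      have h4 : 75 * (J : ℝ) ^ 2 ≤ ε * (J : ℝ) ^ 3 := by
        have : 0 ≤ (J : ℝ) ^ 2 := by positivity
        nlinarith
      nlinarith
    · have h1 : (J : ℝ) ≤ Jε := by exact_mod_cast h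
      have h2 : (J : ℝ) ^ 2 ≤ (Jε : ℝ) ^ 2 := pow_le_pow_left₀ (by positivity) h1 2
      nlinarith
  rw [Real.dist_eq, abs_lt]
  have hL0 : 0 < L := by linarith
  have hsub : recip exB x / L - 1 = (recip exB x - L) / L := by field_simp
  rw [hsub]
  constructor
  · rw [lt_div_iff₀ hL0]
    linarith
  · rw [div_lt_iff₀ hL0]
    nlinarith

end Pool.Agent.H14Trans
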