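import Mathlib

/-!
# Counting solutions of periodic conditions with pairwise coprime periods
-/

set_option autoImplicit false

namespace Pool.Agent.H14Trans

open Finset Classical

lemma periodic_mod {P : ℕ → Prop} {a : ℕ} (hP : ∀ s, P (s + a) ↔ P s) (s : ℕ) :
    P (s % a) ↔ P s := by
  have h : ∀ q r, P (r + a * q) ↔ P r := by
    intro q
    induction q with
    | zero => intro r; simp
    | succ q ih =>
      intro r
      rw [Nat.mul_succ, ← Nat.add_assoc, hP, ih]
  have := h (s / a) (s % a)
  rw [Nat.mod_add_div] at this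
  exact this.symm

lemma periodic_congr {P : ℕ → Prop} {a : ℕ} (hP : ∀ s, P (s + a) ↔ P s) {s t : ℕ}
    (h : s ≡ t [MOD a]) : P s ↔ P t := by
  rw [← periodic_mod hP s, ← periodic_mod hP t, show s % a = t % a from h]

lemma card_crt {a b : ℕ} (ha : 0 < a) (hb : 0 < b) (co : a.Coprime b) {P Q : ℕ → Prop}
    (hP : ∀ s, P (s + a) ↔ P s) (hQ : ∀ s, Q (s + b) ↔ Q s) :
    ((range (a * b)).filter (fun s => P s ∧ Q s)).card =
      ((range a).filter P).card * ((range b).filter Q).card := by
  rw [← card_product]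
  refine card_nbij' (fun s => (s % a, s % b))
    (fun x => (Nat.chineseRemainder co x.1 x.2 : ℕ)) ?_ ?_ ?_ ?_
  · intro s hs
    simp only [coe_filter, mem_range, coe_product, Set.mem_prod] at hs ⊢
    exact ⟨⟨Nat.mod_lt _ ha, (periodic_mod hP s).mpr hs.2.1⟩,
      ⟨Nat.mod_lt _ hb, (periodic_mod hQ s).mpr hs.2.2⟩⟩
  · intro x hx
    simp only [coe_filter, mem_range, coe_product, Set.mem_prod] at hx ⊢
    refine ⟨Nat.chineseRemainder_lt_mul co x.1 x.2 ha.ne' hb.ne', ?_, ?_⟩
    · exact (periodic_congr hP (Nat.chineseRemainder co x.1 x.2).2.1).mpr hx.1.2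
    · exact (periodic_congr hQ (Nat.chineseRemainder co x.1 x.2).2.2).mpr hx.2.2
  · intro s hs
    simp only [coe_filter, mem_range] at hs
    have h1 := Nat.chineseRemainder_modEq_unique co (a := s % a) (b := s % b) (z := s)
      (Nat.mod_modEq s a).symm (Nat.mod_modEq s b).symm
    have h2 := Nat.chineseRemainder_lt_mul co (s % a) (s % b) ha.ne' hb.ne'
    have h3 : s % (a * b) = s := Nat.mod_eq_of_lt hs.1
    have h4 : s % (a * b) = (Nat.chineseRemainder co (s % a) (s % b) : ℕ) % (a * b) := h1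
    rw [h3, Nat.mod_eq_of_lt h2] at h4
    exact h4.symm
  · intro x hx
    simp only [coe_filter, mem_range, coe_product, Set.mem_prod] at hx
    have h1 := (Nat.chineseRemainder co x.1 x.2).2.1
    have h2 := (Nat.chineseRemainder co x.1 x.2).2.2
    ext
    · change _ % a = _
      rw [show (Nat.chineseRemainder co x.1 x.2 : ℕ) % a = x.1 % a from h1,
        Nat.mod_eq_of_lt hx.1.1]
    · change _ % b = _
      rw [show (Nat.chineseRemainder co x.1 x.2 : ℕ) % b = x.2 % b from h2,
        Nat.mod_eq_of_lt hx.2.1]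

/-- Data for the sieve: `bad b` is periodic mod `b` with `ω b` residue classes, and the moduli are
pairwise coprime. -/
structure Good (bad : ℕ → ℕ → Prop) (ω : ℕ → ℕ) (D : Finset ℕ) : Prop where
  pos : ∀ b ∈ D, 0 < b
  per : ∀ b ∈ D, ∀ s, bad b (s + b) ↔ bad b s
  card : ∀ b ∈ D, ((range b).filter (bad b)).card = ω b
  cop : ∀ b ∈ D, ∀ c ∈ D, b ≠ c → b.Coprime c

lemma Good.mono {bad : ℕ → ℕ → Prop} {ω : ℕ → ℕ} {D D' : Finset ℕ} (h : Good bad ω D)
    (hs : D' ⊆ D) : Good bad ω D' :=
  ⟨fun b hb => h.pos b (hs hb), fun b hb => h.per b (hs hb), fun b hb => h.card b (hs hb),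
    fun b hb c hc => h.cop b (hs hb) c (hs hc)⟩

/-- all conditions in `S` hold at `s` -/
def AllBad (bad : ℕ → ℕ → Prop) (S : Finset ℕ) (s : ℕ) : Prop := ∀ b ∈ S, bad b s

lemma Good.periodic {bad : ℕ → ℕ → Prop} {ω : ℕ → ℕ} {S : Finset ℕ} (h : Good bad ω S) (s : ℕ) :
    AllBad bad S (s + ∏ b ∈ S, b) ↔ AllBad bad S s := by
  refine forall₂_congr fun b hb => ?_
  refine periodic_congr (h.per b hb) ?_
  have : (∏ b ∈ S, b) ≡ 0 [MOD b] := (Nat.modEq_zero_iff_dvd).mpr (dvd_prod_of_mem _ hb)
  simpa using this.add_left s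

lemma Good.card_full {bad : ℕ → ℕ → Prop} {ω : ℕ → ℕ} {S : Finset ℕ} (h : Good bad ω S) :
    ((range (∏ b ∈ S, b)).filter (AllBad bad S)).card = ∏ b ∈ S, ω b := by
  induction S using Finset.induction_on with
  | empty =>
    have e : AllBad bad ∅ = fun _ => True := by funext s; simp [AllBad]
    rw [e]; simp
  | insert a S ha ih =>
    have hS := h.mono (subset_insert a S)
    have co : a.Coprime (∏ b ∈ S, b) := by
      refine Nat.Coprime.prod_right fun b hb => ?_
      exact h.cop a (mem_insert_self _ _) b (mem_insert_of_mem hb) (by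
        rintro rfl; exact ha hb)
    have e : AllBad bad (insert a S) = fun s => bad a s ∧ AllBad bad S s := by
      funext s; simp [AllBad]
    have h1 := card_crt (h.pos a (mem_insert_self _ _))
        (prod_pos fun b hb => hS.pos b hb) co (h.per a (mem_insert_self _ _))
        (fun s => hS.periodic s)
    rw [prod_insert ha, prod_insert ha, ← ih hS, ← h.card a (mem_insert_self _ _), ← h1, e]
    congr!

lemma count_periodic_bound {P : ℕ → Prop} {D C : ℕ} (hD : 0 < D) (hP : ∀ s, P (s + D) ↔ P s)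
    (hC : ((range D).filter P).card = C) (N : ℕ) :
    |(((range N).filter P).card : ℝ) - N * ((C : ℝ) / D)| ≤ C := by
  have hcount : ∀ n, Nat.count P n = ((range n).filter P).card := fun n => by
    rw [Nat.count_eq_card_filter_range]
  have h1 : ∀ q r, Nat.count P (r + D * q) = Nat.count P r + C * q := by
    intro q
    induction q with
    | zero => intro r; simp
    | succ q ih =>
      intro r
      have e1 : r + D * (q + 1) = D + (r + D * q) := by ring
      rw [e1, Nat.count_add, hcount D, hC]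
      have e2 : (fun k => P (D + k)) = P := by
        funext k
        rw [Nat.add_comm]
        exact propext (hP k)
      have e3 : Nat.count (fun k => P (D + k)) (r + D * q) = Nat.count P (r + D * q) := by
        rw [hcount, Nat.count_eq_card_filter_range]
        congr 1
        ext k
        simp only [mem_filter, mem_range, and_congr_right_iff]
        intro _
        rw [Nat.add_comm]; exact hP k
      rw [e3, ih]
      ring
  have h2 := h1 (N / D) (N % D)
  rw [Nat.mod_add_div] at h2
  rw [← hcount, h2]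
  have h3 : Nat.count P (N % D) ≤ C := by
    rw [← hC, ← hcount]
    exact Nat.count_monotone P (Nat.mod_lt _ hD).le
  have h4 : ((N % D + D * (N / D) : ℕ) : ℝ) = N := by rw [Nat.mod_add_div]
  have hD' : (0 : ℝ) < D := by exact_mod_cast hD
  have h5 : (N : ℝ) * ((C : ℝ) / D) = C * ((N % D : ℕ) : ℝ) / D + C * (N / D : ℕ) := by
    rw [← h4]; push_cast; field_simp
  have h6 : ((N % D : ℕ) : ℝ) / D ≤ 1 := by
    rw [div_le_one hD']; exact_mod_cast (Nat.mod_lt _ hD).le
  have h7 : (0 : ℝ) ≤ ((N % D : ℕ) : ℝ) / D := by positivity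
  have hC0 : (0 : ℝ) ≤ C := by positivity
  have h8 : (C : ℝ) * ((N % D : ℕ) : ℝ) / D = C * (((N % D : ℕ) : ℝ) / D) := by ring
  have h9 : (0 : ℝ) ≤ (Nat.count P (N % D) : ℝ) := by positivity
  have h10 : (Nat.count P (N % D) : ℝ) ≤ C := by exact_mod_cast h3
  rw [h5, h8]
  push_cast
  rw [abs_le]
  constructor <;> nlinarith

lemma Good.count {bad : ℕ → ℕ → Prop} {ω : ℕ → ℕ} {S : Finset ℕ} (h : Good bad ω S) (N : ℕ) :
    |(((range N).filter (AllBad bad S)).card : ℝ) -
      N * ∏ b ∈ S, ((ω b : ℝ) / b)| ≤ ∏ b ∈ S, (ω b : ℝ) := by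
  have h1 := count_periodic_bound (P := AllBad bad S)
    (prod_pos fun b hb => h.pos b hb) h.periodic h.card_full N
  rw [prod_div_distrib]
  push_cast at h1
  exact h1

end Pool.Agent.H14Trans
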