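import Pool.Agent.H14Trans.Mass

/-!
# The window theorem
-/

set_option autoImplicit false

namespace Pool.Agent.H14Trans

open Finset Classical

/-- `∑_{b ∈ B, b < x} 1/b` -/
noncomputable def recip (B : Set ℕ) (x : ℝ) : ℝ :=
  ∑ b ∈ (range ⌈x⌉₊).filter (fun b => b ∈ B), (1 : ℝ) / b

lemma prod_Icc_fact (n : ℕ) : ∏ b ∈ Icc 1 n, b = n.factorial := by
  induction n with
  | zero => simp
  | succ n ih => rw [prod_Icc_succ_top (by omega), ih, Nat.factorial_succ, mul_comm]

lemma exists_res {M b a : ℕ} (hb : 0 < b) (hM : M.Coprime b) : ∃ r < b, b ∣ M * r + a := by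
  have : NeZero b := ⟨hb.ne'⟩
  have hu : IsUnit (M : ZMod b) := (ZMod.isUnit_iff_coprime M b).mpr hM
  refine ⟨(-(a : ZMod b) * (M : ZMod b)⁻¹).val, ZMod.val_lt _, ?_⟩
  rw [← ZMod.natCast_eq_zero_iff]
  push_cast
  rw [ZMod.natCast_zmod_val, mul_comm (M : ZMod b), mul_assoc, ZMod.inv_mul_of_unit _ hu]
  ring

lemma res_unique {M b a r s : ℕ} (hb : 0 < b) (hM : M.Coprime b) (hr : r < b)
    (h1 : b ∣ M * r + a) (h2 : b ∣ M * s + a) : s % b = r := by
  have : NeZero b := ⟨hb.ne'⟩
  have hu : IsUnit (M : ZMod b) := (ZMod.isUnit_iff_coprime M b).mpr hM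
  rw [← ZMod.natCast_eq_zero_iff] at h1 h2
  push_cast at h1 h2
  have h3 : (M : ZMod b) * r = M * s := by
    have := h1.trans h2.symm
    exact add_right_cancel this
  have h4 : (r : ZMod b) = s := hu.mul_left_cancel h3
  have h5 := (ZMod.natCast_eq_natCast_iff' r s b).mp h4
  rw [← h5, Nat.mod_eq_of_lt hr]

lemma div_count {M b a X : ℕ} (hb : 0 < b) (hM : M.Coprime b) :
    (#((range X).filter (fun s => b ∣ M * s + a)) : ℝ) ≤ (X : ℝ) / b + 1 := by
  obtain ⟨r, hr, hr'⟩ := exists_res (a := a) hb hM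
  have h1 : #((range X).filter (fun s => b ∣ M * s + a)) ≤ #(range (X / b + 1)) := by
    refine card_le_card_of_injOn (fun s => s / b) ?_ ?_
    · intro s hs
      simp only [coe_filter, mem_range] at hs
      simp only [coe_range, Set.mem_Iio]
      exact Nat.lt_succ_of_le (Nat.div_le_div_right hs.1.le)
    · intro s hs t ht hst
      simp only [coe_filter, mem_range] at hs ht
      have e1 := res_unique hb hM hr hr' hs.2
      have e2 := res_unique hb hM hr hr' ht.2
      have hst' : s / b = t / b := hst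
      rw [← Nat.div_add_mod s b, ← Nat.div_add_mod t b, e1, e2, hst']
  rw [card_range] at h1
  have h2 : ((X / b + 1 : ℕ) : ℝ) ≤ (X : ℝ) / b + 1 := by
    push_cast
    have := Nat.cast_div_le (α := ℝ) (m := X) (n := b)
    linarith
  exact le_trans (by exact_mod_cast h1) h2

lemma mid_count {M b a X W₁ : ℕ} {A D : Finset ℕ} {V : ℝ} (hb : 0 < b) (hM : M.Coprime b)
    (hV : 0 ≤ V)
    (hFL : ∀ e N : ℕ, W₁ ≤ N →
      (#((range N).filter (Sift (bd (M * b) e A) D)) : ℝ) ≤ 2 * N * V)
    (hX : W₁ ≤ X / b + 1) (hbX : b ≤ X) :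
    (#((range X).filter (fun s => Sift (bd M 0 A) D s ∧ b ∣ M * s + a)) : ℝ) ≤
      4 * X * V * (1 / b) := by
  obtain ⟨r, hr, hr'⟩ := exists_res (a := a) hb hM
  have h1 : #((range X).filter (fun s => Sift (bd M 0 A) D s ∧ b ∣ M * s + a)) ≤
      #((range (X / b + 1)).filter (Sift (bd (M * b) (M * r) A) D)) := by
    refine card_le_card_of_injOn (fun s => s / b) ?_ ?_
    · intro s hs
      simp only [coe_filter, mem_range] at hs ⊢
      refine ⟨Nat.lt_succ_of_le (Nat.div_le_div_right hs.1.le), ?_⟩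
      intro b' hb' hbad
      refine hs.2.1 b' hb' ?_
      obtain ⟨a', ha', hdvd⟩ := hbad
      refine ⟨a', ha', ?_⟩
      have e1 := res_unique hb hM hr hr' hs.2.2
      have e2 : M * s + (0 + a') = M * b * (s / b) + (M * r + a') := by
        conv_lhs => rw [← Nat.div_add_mod s b, e1]
        ring
      rw [e2]
      exact hdvd
    · intro s hs t ht hst
      simp only [coe_filter, mem_range] at hs ht
      have e1 := res_unique hb hM hr hr' hs.2.2
      have e2 := res_unique hb hM hr hr' ht.2.2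
      have hst' : s / b = t / b := hst
      rw [← Nat.div_add_mod s b, ← Nat.div_add_mod t b, e1, e2, hst']
  have h2 := hFL (M * r) (X / b + 1) hX
  have h3 : ((X / b + 1 : ℕ) : ℝ) ≤ 2 * (X * (1 / b)) := by
    push_cast
    have h4 := Nat.cast_div_le (α := ℝ) (m := X) (n := b)
    have hb' : (0 : ℝ) < b := by exact_mod_cast hb
    have h5 : (1 : ℝ) ≤ X * (1 / b) := by
      rw [mul_one_div, le_div_iff₀ hb', one_mul]
      exact_mod_cast hbX
    rw [mul_one_div] at h5 ⊢
    linarith
  calc (#((range X).filter (fun s => Sift (bd M 0 A) D s ∧ b ∣ M * s + a)) : ℝ)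
      ≤ 2 * ((X / b + 1 : ℕ) : ℝ) * V := le_trans (by exact_mod_cast h1) h2
    _ ≤ 2 * (2 * (X * (1 / b))) * V := by gcongr
    _ = 4 * X * V * (1 / b) := by ring

/-- The window theorem for sets without the element `1`. -/
theorem window (n : ℕ) (hn : 1 ≤ n) : ∃ K : ℕ, 2 ≤ K ∧ ∃ η : ℝ, 0 < η ∧ ∃ x₀ : ℝ,
    ∀ B : Set ℕ, (∀ b ∈ B, 2 ≤ b) → (∀ b ∈ B, ∀ c ∈ B, b ≠ c → b.Coprime c) →
      ∀ x : ℝ, x₀ ≤ x → recip B (x ^ K) - recip B x < η →
      ∃ t ≥ 1, ∀ a, 1 ≤ a → a ≤ n → ((∀ b ∈ B, ¬ b ∣ a) ↔ ∀ b ∈ B, ¬ b ∣ a + t) := by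
  obtain ⟨s₁, hs₁, hF⟩ := fundamental n 16 (by norm_num)
  obtain ⟨J₀, hJ₀⟩ := hF (2 * n + 2) le_rfl
  set y₀ := 2 * n + 2 with hy₀
  obtain ⟨h, hh⟩ := pow_unbounded_of_one_lt (64 * n * Real.exp 14 * (s₁ + 1)) (one_lt_two (α := ℝ))
  set m := s₁ * 2 ^ h + s₁ + 5 with hm
  set Jm := max J₀ (n.factorial + n + 4) with hJm
  have hn0 : (0 : ℝ) < n := by exact_mod_cast hn
  refine ⟨2 * (2 * m + 1), by omega, 1 / (64 * n), by positivity, (y₀ : ℝ) ^ (2 ^ Jm), ?_⟩
  intro B hB2 hBc x hx hwin
  -- choose the level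
  have hy1 : 1 < y₀ := by omega
  have hyR : (1 : ℝ) < y₀ := by exact_mod_cast hy1
  have hex : ∃ j : ℕ, x ≤ (y₀ : ℝ) ^ (2 ^ j) := by
    obtain ⟨j, hj⟩ := pow_unbounded_of_one_lt x hyR
    exact ⟨j, hj.le.trans (pow_le_pow_right₀ hyR.le Nat.lt_two_pow_self.le)⟩
  set J := Nat.find hex with hJ
  have hxw : x ≤ (y₀ : ℝ) ^ (2 ^ J) := Nat.find_spec hex
  have hJJm : Jm ≤ J := by
    by_contra hcon
    push Not at hcon
    have h1 : (y₀ : ℝ) ^ (2 ^ J) < (y₀ : ℝ) ^ (2 ^ Jm) :=
      pow_lt_pow_right₀ hyR (Nat.pow_lt_pow_right (by norm_num) hcon)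
    linarith
  have hJ1 : 1 ≤ J := by
    have : n.factorial + n + 4 ≤ Jm := le_max_right _ _
    omega
  have hwx : (y₀ : ℝ) ^ (2 ^ J) < x ^ 2 := by
    have h1 := Nat.find_min hex (m := J - 1) (by omega)
    push Not at h1
    have h2 : (y₀ : ℝ) ^ (2 ^ J) = ((y₀ : ℝ) ^ (2 ^ (J - 1))) ^ 2 := by
      rw [← pow_mul, ← pow_succ, Nat.sub_add_cancel hJ1]
    rw [h2]
    exact pow_lt_pow_left₀ h1 (by positivity) (by norm_num)
  set w : ℕ := y₀ ^ (2 ^ J) with hw
  have hwR : (w : ℝ) = (y₀ : ℝ) ^ (2 ^ J) := by rw [hw]; push_cast; rfl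
  rw [← hwR] at hxw hwx
  have hwJ : J < w := by
    calc J < 2 ^ J := Nat.lt_two_pow_self
      _ < 2 ^ (2 ^ J) := Nat.lt_two_pow_self
      _ ≤ w := Nat.pow_le_pow_left (by omega) _
  have hwbig : n.factorial + n + 4 ≤ w := by
    have : n.factorial + n + 4 ≤ Jm := le_max_right _ _
    omega
  have hw4 : 4 ≤ w := by omega
  -- the modulus
  set M : ℕ := ∏ b ∈ (Icc 1 n).filter (fun b => b ∈ B), b with hM
  have hM1 : 1 ≤ M := by
    refine Nat.succ_le_of_lt (Finset.prod_pos fun b hb => ?_)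
    have h1 := (mem_filter.mp hb).1
    rw [mem_Icc] at h1
    omega
  have hMn : M ≤ n.factorial := by
    have : ∏ b ∈ Icc 1 n, b = n.factorial := prod_Icc_fact n
    rw [← this]
    exact prod_le_prod_of_subset_of_one_le' (filter_subset _ _) (fun b hb _ => by
      rw [mem_Icc] at hb; exact hb.1)
  have hMcop : ∀ b ∈ B, n < b → M.Coprime b := by
    intro b hb hnb
    refine Nat.Coprime.prod_left fun c hc => ?_
    rw [mem_filter, mem_Icc] at hc
    exact hBc c hc.2 b hb (by omega)
  have hMdvd : ∀ b ∈ B, b ≤ n → b ∣ M := by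
    intro b hb hbn
    refine dvd_prod_of_mem (fun b => b) ?_
    rw [mem_filter, mem_Icc]
    exact ⟨⟨by have := hB2 b hb; omega, hbn⟩, hb⟩
  set A : Finset ℕ := (Icc 1 n).filter (fun a => ∀ b ∈ B, ¬ b ∣ a) with hA
  have hAn : ∀ a ∈ A, a ≤ n := fun a ha => by rw [hA, mem_filter, mem_Icc] at ha; exact ha.1.2
  have hA1 : ∀ a ∈ A, 1 ≤ a := fun a ha => by rw [hA, mem_filter, mem_Icc] at ha; exact ha.1.1
  have hAcard : #A ≤ n := by
    have := card_le_card (filter_subset (fun a => ∀ b ∈ B, ¬ b ∣ a) (Icc 1 n))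
    simpa using this
  -- reduction to finding `s`
  suffices hs : ∃ s ≥ 1, ∀ a ∈ A, ∀ b ∈ B, n < b → ¬ b ∣ M * s + a by
    obtain ⟨s, hs1, hs⟩ := hs
    refine ⟨M * s, Nat.mul_pos hM1 hs1, fun a ha1 han => ?_⟩
    constructor
    · intro haB b hb hdvd
      by_cases hbn : b ≤ n
      · have h1 : b ∣ M * s := (hMdvd b hb hbn).mul_right s
        exact haB b hb ((Nat.dvd_add_iff_left h1).mpr hdvd)
      · push Not at hbn
        refine hs a ?_ b hb hbn (by rw [Nat.add_comm]; exact hdvd)
        rw [hA, mem_filter, mem_Icc]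
        exact ⟨⟨ha1, han⟩, haB⟩
    · intro haB b hb hdvd
      have hba : b ≤ a := Nat.le_of_dvd (by omega) hdvd
      have h1 : b ∣ M * s := (hMdvd b hb (by omega)).mul_right s
      exact haB b hb (hdvd.add h1)
  by_contra hno
  push Not at hno
  -- sieve data
  set D : Finset ℕ := (Ioc n w).filter (fun b => b ∈ B) with hD
  have hDB : ∀ b ∈ D, b ∈ B ∧ n < b ∧ b ≤ w := fun b hb => by
    rw [hD, mem_filter, mem_Ioc] at hb; exact ⟨hb.2, hb.1.1, hb.1.2⟩
  have hgood : ∀ c e : ℕ, (∀ b ∈ D, c.Coprime b) → Good (bd c e A) (fun _ => #A) D := by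
    intro c e hc
    refine ⟨fun b hb => by have := (hDB b hb).2.1; omega, fun b _ s => bd_periodic c e A b s,
      fun b hb => card_bd hAn (hDB b hb).2.1 (hc b hb), fun b hb c hc' => ?_⟩
    exact hBc b (hDB b hb).1 c (hDB c hc').1
  have hmassD : ∀ (D' : Finset ℕ) (i : ℕ), (∀ b ∈ D', 2 ≤ b) →
      (∀ b ∈ D', ∀ c ∈ D', b ≠ c → b.Coprime c) → ∑ b ∈ lay y₀ D' i, (1 : ℝ) / b ≤ 16 := by
    intro D' i h2 hc
    refine mass_le (y := y₀ ^ (2 ^ i)) (fun b hb => h2 b ?_) (fun b hb c hc' => hc b ?_ c ?_) ?_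
      (fun b hb => ?_) (fun b hb => ?_)
    · exact (mem_filter.mp hb).1
    · exact (mem_filter.mp hb).1
    · exact (mem_filter.mp hc').1
    · calc 2 ≤ y₀ ^ 1 := by rw [pow_one]; omega
        _ ≤ _ := Nat.pow_le_pow_right (by omega) Nat.one_le_two_pow
    · exact (mem_filter.mp hb).2.1
    · have h3 := (mem_filter.mp hb).2.2
      rwa [← pow_mul, ← pow_succ]
  set V : ℝ := ∏ b ∈ D, (1 - ((#A : ℕ) : ℝ) / b) with hV
  have hFL : ∀ c e : ℕ, (∀ b ∈ D, c.Coprime b) → 1 ≤ V * (w : ℝ) ∧ ∀ N : ℕ, w ^ s₁ ≤ N →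
      N * V / 2 ≤ (#((range N).filter (Sift (bd c e A) D)) : ℝ) ∧
      (#((range N).filter (Sift (bd c e A) D)) : ℝ) ≤ 2 * N * V := by
    intro c e hc
    have h1 := hJ₀ J (le_trans (le_max_left _ _) hJJm) (bd c e A) (fun _ => #A) D (hgood c e hc)
      (fun b hb => ⟨hAcard, by have := (hDB b hb).2.1; omega⟩) (fun b hb => (hDB b hb).2.2)
      (fun i _ => hmassD D i (fun b hb => hB2 b (hDB b hb).1)
        (fun b hb c hc' => hBc b (hDB b hb).1 c (hDB c hc').1))
    rw [← hwR] at h1
    exact h1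
  have hDM : ∀ b ∈ D, M.Coprime b := fun b hb => hMcop b (hDB b hb).1 (hDB b hb).2.1
  obtain ⟨hVw, hFLM⟩ := hFL M 0 hDM
  have hwR0 : (0 : ℝ) < w := by have : 0 < w := by omega
                                exact_mod_cast this
  have hV0 : 0 < V := by
    by_contra hcon
    push Not at hcon
    have : V * (w : ℝ) ≤ 0 := mul_nonpos_of_nonpos_of_nonneg hcon hwR0.le
    linarith
  set X : ℕ := w ^ (2 * m + 1) with hX
  have hX1 : 1 ≤ X := Nat.one_le_pow _ _ (by omega)
  have hpm : ∀ {i j : ℕ}, i ≤ j → w ^ i ≤ w ^ j := fun hij => Nat.pow_le_pow_right (by omega) hij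
  have hs₁h : s₁ ≤ s₁ * 2 ^ h := Nat.le_mul_of_pos_right _ (by positivity)
  have hlow := (hFLM X (hpm (by omega))).1
  set Y : ℕ := M * X + n with hY
  have hYle : Y ≤ w ^ (2 * m + 2) := by
    calc Y ≤ M * X + n * X := by rw [hY]; gcongr; exact Nat.le_mul_of_pos_right _ hX1
      _ = (M + n) * X := by ring
      _ ≤ w * X := by gcongr; omega
      _ = w ^ (2 * m + 2) := by rw [hX]; ring
  -- the three bad families
  set Dm : Finset ℕ := (Ioc w (w ^ (2 * m + 1 - s₁))).filter (fun b => b ∈ B) with hDm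
  set Dc : Finset ℕ := (Ioc (w ^ (2 * m + 1 - s₁)) Y).filter (fun b => b ∈ B ∧ ¬ b.Prime) with hDc
  set u : ℕ := w ^ (s₁ + 1) with hu
  set w' : ℕ := w ^ (2 ^ h) with hw'
  set Q : Finset ℕ := (Ioc u w').filter Nat.Prime with hQ
  set bad' : ℕ → ℕ → ℕ → Prop := fun a b s => if b ≤ w then bd M 0 A b s else b ∣ M * s + a
    with hbad'
  have hwu : w ≤ u := by
    calc w = w ^ 1 := (pow_one w).symm
      _ ≤ u := hpm (by omega)
  have hQw : ∀ q ∈ Q, u < q ∧ q ≤ w' ∧ q.Prime := fun q hq => by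
    rw [hQ, mem_filter, mem_Ioc] at hq; exact ⟨hq.1.1, hq.1.2, hq.2⟩
  have hcover : (range X).filter (Sift (bd M 0 A) D) ⊆
      ({0} : Finset ℕ) ∪ Dm.biUnion (fun b => A.biUnion (fun a =>
        (range X).filter (fun s => Sift (bd M 0 A) D s ∧ b ∣ M * s + a))) ∪
      Dc.biUnion (fun b => A.biUnion (fun a => (range X).filter (fun s => b ∣ M * s + a))) ∪
      A.biUnion (fun a => (range X).filter (Sift (bad' a) (D ∪ Q))) := by
    intro s hs
    rw [mem_filter, mem_range] at hs
    by_cases hs0 : s = 0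
    · simp [hs0]
    obtain ⟨a, haA, b, hbB, hnb, hdvd⟩ := hno s (by omega)
    have hpos : 0 < M * s + a := by have := hA1 a haA; omega
    have hle : M * s + a ≤ Y := by
      rw [hY]
      have h1 : M * s ≤ M * X := Nat.mul_le_mul_left _ hs.1.le
      have h2 := hAn a haA
      omega
    have hbY : b ≤ Y := (Nat.le_of_dvd hpos hdvd).trans hle
    by_cases hbw : b ≤ w
    · exfalso
      refine hs.2 b ?_ ⟨a, haA, by rw [Nat.zero_add]; exact hdvd⟩
      rw [hD, mem_filter, mem_Ioc]
      exact ⟨⟨hnb, hbw⟩, hbB⟩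
    push Not at hbw
    by_cases hbm : b ≤ w ^ (2 * m + 1 - s₁)
    · rw [mem_union, mem_union, mem_union]
      left; left; right
      rw [mem_biUnion]
      refine ⟨b, ?_, ?_⟩
      · rw [hDm, mem_filter, mem_Ioc]; exact ⟨⟨hbw, hbm⟩, hbB⟩
      · rw [mem_biUnion]
        refine ⟨a, haA, ?_⟩
        rw [mem_filter, mem_range]
        exact ⟨hs.1, hs.2, hdvd⟩
    push Not at hbm
    by_cases hbp : b.Prime
    · rw [mem_union]
      right
      rw [mem_biUnion]
      refine ⟨a, haA, ?_⟩
      rw [mem_filter, mem_range]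
      refine ⟨hs.1, ?_⟩
      intro q hq
      rw [mem_union] at hq
      rcases hq with hq | hq
      · simp only [hbad']
        rw [if_pos (hDB q hq).2.2]
        exact hs.2 q hq
      · obtain ⟨hq1, hq2, hq3⟩ := hQw q hq
        simp only [hbad']
        rw [if_neg (by omega)]
        intro hqd
        obtain ⟨k, hk⟩ := hdvd
        have hw'b : w' < b := by
          refine lt_of_le_of_lt ?_ hbm
          refine hpm ?_
          have : 2 ^ h ≤ s₁ * 2 ^ h := Nat.le_mul_of_pos_left _ (by omega)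
          omega
        have hqb : q.Coprime b := (Nat.coprime_primes hq3 hbp).mpr (by omega)
        rw [hk] at hqd
        have hqk : q ∣ k := hqb.dvd_of_dvd_mul_left hqd
        have hk0 : 0 < k := by
          rcases Nat.eq_zero_or_pos k with h0 | h0
          · rw [h0] at hk; simp at hk; omega
          · exact h0
        have hqk' := Nat.le_of_dvd hk0 hqk
        have h5 : k * w ^ (2 * m + 1 - s₁) < w ^ (s₁ + 1) * w ^ (2 * m + 1 - s₁) := by
          calc k * w ^ (2 * m + 1 - s₁) < k * b := Nat.mul_lt_mul_of_pos_left hbm hk0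
            _ = M * s + a := by rw [hk]; ring
            _ ≤ w ^ (2 * m + 2) := hle.trans hYle
            _ = w ^ (s₁ + 1) * w ^ (2 * m + 1 - s₁) := by
              rw [← pow_add]; congr 1; omega
        have h6 : k < w ^ (s₁ + 1) := Nat.lt_of_mul_lt_mul_right h5
        omega
    · rw [mem_union, mem_union]
      left; right
      rw [mem_biUnion]
      refine ⟨b, ?_, ?_⟩
      · rw [hDc, mem_filter, mem_Ioc]; exact ⟨⟨hbm, hbY⟩, hbB, hbp⟩
      · rw [mem_biUnion]
        refine ⟨a, haA, ?_⟩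
        rw [mem_filter, mem_range]
        exact ⟨hs.1, hdvd⟩
  have hwRp : ∀ {i j : ℕ}, i ≤ j → (w : ℝ) ^ i ≤ (w : ℝ) ^ j := fun hij =>
    pow_le_pow_right₀ (by have : (1 : ℝ) ≤ w := by exact_mod_cast (by omega : 1 ≤ w)
                          exact this) hij
  have hXR : (X : ℝ) = (w : ℝ) ^ (2 * m + 1) := by rw [hX]; push_cast; rfl
  have hX0 : (0 : ℝ) < X := by exact_mod_cast hX1
  -- family 1
  have hb1 : ((#(Dm.biUnion (fun b => A.biUnion (fun a =>
        (range X).filter (fun s => Sift (bd M 0 A) D s ∧ b ∣ M * s + a)))) : ℕ) : ℝ) ≤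
        X * V / 16 := by
    have hsum : ∑ b ∈ Dm, (1 : ℝ) / b ≤ 1 / (64 * n) := by
      refine le_trans ?_ hwin.le
      have hx1 : (1 : ℝ) ≤ x := by
        have : (1 : ℝ) ≤ (y₀ : ℝ) ^ (2 ^ Jm) := one_le_pow₀ hyR.le
        linarith
      have hxK : x ≤ x ^ (2 * (2 * m + 1)) := le_self_pow₀ hx1 (by omega)
      have hsub : (range ⌈x⌉₊).filter (fun b => b ∈ B) ⊆
          (range ⌈x ^ (2 * (2 * m + 1))⌉₊).filter (fun b => b ∈ B) :=
        filter_subset_filter _ (range_subset_range.mpr (Nat.ceil_mono hxK))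
      unfold recip
      rw [← sum_sdiff hsub, add_sub_cancel_right]
      refine sum_le_sum_of_subset_of_nonneg ?_ (fun b _ _ => by positivity)
      intro b hb
      rw [hDm, mem_filter, mem_Ioc] at hb
      rw [mem_sdiff, mem_filter, mem_filter, mem_range, mem_range, Nat.lt_ceil, Nat.lt_ceil]
      refine ⟨⟨?_, hb.2⟩, ?_⟩
      · have h1 : (b : ℝ) ≤ (w : ℝ) ^ (2 * m + 1 - s₁) := by exact_mod_cast hb.1.2
        calc (b : ℝ) ≤ (w : ℝ) ^ (2 * m + 1) := h1.trans (hwRp (by omega))
          _ < (x ^ 2) ^ (2 * m + 1) := pow_lt_pow_left₀ hwx hwR0.le (by omega)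
          _ = x ^ (2 * (2 * m + 1)) := by rw [pow_mul]
      · rintro ⟨h1, _⟩
        have h2 : (w : ℝ) < b := by exact_mod_cast hb.1.1
        linarith
    calc ((#(Dm.biUnion (fun b => A.biUnion (fun a =>
          (range X).filter (fun s => Sift (bd M 0 A) D s ∧ b ∣ M * s + a)))) : ℕ) : ℝ)
        ≤ ∑ b ∈ Dm, ∑ a ∈ A,
            (#((range X).filter (fun s => Sift (bd M 0 A) D s ∧ b ∣ M * s + a)) : ℝ) := by
          have h0 := (card_biUnion_le (s := Dm) (t := fun b => A.biUnion (fun a =>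
            (range X).filter (fun s => Sift (bd M 0 A) D s ∧ b ∣ M * s + a)))).trans
            (sum_le_sum fun b _ => card_biUnion_le)
          exact_mod_cast h0
      _ ≤ ∑ b ∈ Dm, ∑ a ∈ A, 4 * X * V * (1 / (b : ℝ)) := by
          refine sum_le_sum fun b hb => sum_le_sum fun a _ => ?_
          rw [hDm, mem_filter, mem_Ioc] at hb
          have hnb : n < b := by omega
          have hcop := hMcop b hb.2 hnb
          have hbX : b ≤ X := hb.1.2.trans (hpm (by omega))
          refine mid_count (W₁ := w ^ s₁) (by omega) hcop hV0.le (fun e N hN => ?_) ?_ hbX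
          · refine ((hFL (M * b) e (fun c hc => ?_)).2 N hN).2
            have h3 := hDB c hc
            exact Nat.Coprime.mul_left (hMcop c h3.1 h3.2.1) (hBc b hb.2 c h3.1 (by omega))
          · have h4 : w ^ s₁ ≤ X / b := by
              rw [Nat.le_div_iff_mul_le (by omega)]
              calc w ^ s₁ * b ≤ w ^ s₁ * w ^ (2 * m + 1 - s₁) := Nat.mul_le_mul_left _ hb.1.2
                _ = X := by rw [← pow_add, hX]; congr 1; omega
            omega
      _ = (#A : ℝ) * (4 * X * V) * ∑ b ∈ Dm, (1 : ℝ) / b := by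
          rw [mul_sum]
          refine sum_congr rfl fun b _ => ?_
          rw [sum_const, nsmul_eq_mul]
          ring
      _ ≤ n * (4 * X * V) * (1 / (64 * n)) := by
          have : (#A : ℝ) ≤ n := by exact_mod_cast hAcard
          gcongr
      _ = X * V / 16 := by field_simp; ring
  -- family 2
  have hb2 : ((#(Dc.biUnion (fun b => A.biUnion (fun a =>
        (range X).filter (fun s => b ∣ M * s + a)))) : ℕ) : ℝ) ≤ (w : ℝ) ^ (m + s₁ + 3) := by
    have hcard : #Dc ≤ w ^ (m + 1) := by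
      refine comp_card_le (fun b hb => ?_) (fun b hb c hc => ?_) (fun b hb => ?_)
      · rw [hDc, mem_filter] at hb; exact ⟨hB2 b hb.2.1, hb.2.2⟩
      · rw [hDc, mem_filter] at hb hc; exact hBc b hb.2.1 c hc.2.1
      · rw [hDc, mem_filter, mem_Ioc] at hb
        calc b ≤ Y := hb.1.2
          _ ≤ w ^ (2 * m + 2) := hYle
          _ = (w ^ (m + 1)) ^ 2 := by ring
    have hcardR : (#Dc : ℝ) ≤ (w : ℝ) ^ (m + 1) := by exact_mod_cast hcard
    calc ((#(Dc.biUnion (fun b => A.biUnion (fun a =>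
          (range X).filter (fun s => b ∣ M * s + a)))) : ℕ) : ℝ)
        ≤ ∑ b ∈ Dc, ∑ a ∈ A, (#((range X).filter (fun s => b ∣ M * s + a)) : ℝ) := by
          have h0 := (card_biUnion_le (s := Dc) (t := fun b => A.biUnion (fun a =>
            (range X).filter (fun s => b ∣ M * s + a)))).trans
            (sum_le_sum fun b _ => card_biUnion_le)
          exact_mod_cast h0
      _ ≤ ∑ b ∈ Dc, ∑ a ∈ A, ((w : ℝ) ^ s₁ + 1) := by
          refine sum_le_sum fun b hb => sum_le_sum fun a _ => ?_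
          rw [hDc, mem_filter, mem_Ioc] at hb
          have hwle : w ≤ w ^ (2 * m + 1 - s₁) := by
            calc w = w ^ 1 := (pow_one w).symm
              _ ≤ _ := hpm (by omega)
          have hnb : n < b := by omega
          refine (div_count (by omega) (hMcop b hb.2.1 hnb)).trans ?_
          have hb0 : (0 : ℝ) < b := by exact_mod_cast (by omega : 0 < b)
          have h3 : (X : ℝ) / b ≤ (w : ℝ) ^ s₁ := by
            rw [div_le_iff₀ hb0]
            have h4 : (X : ℝ) = (w : ℝ) ^ s₁ * (w : ℝ) ^ (2 * m + 1 - s₁) := by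
              rw [hXR, ← pow_add]; congr 1; omega
            rw [h4]
            have h5 : (w : ℝ) ^ (2 * m + 1 - s₁) ≤ b := by exact_mod_cast hb.1.1.le
            gcongr
          linarith
      _ = (#Dc : ℝ) * (#A * ((w : ℝ) ^ s₁ + 1)) := by
          rw [sum_const, sum_const, nsmul_eq_mul, nsmul_eq_mul]
      _ ≤ (w : ℝ) ^ (m + 1) * (w * (w : ℝ) ^ (s₁ + 1)) := by
          have h1 : (#A : ℝ) ≤ w := by exact_mod_cast (by omega : #A ≤ w)
          have h2 : (w : ℝ) ^ s₁ + 1 ≤ (w : ℝ) ^ (s₁ + 1) := by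
            have h3 : (1 : ℝ) ≤ (w : ℝ) ^ s₁ := one_le_pow₀ (by exact_mod_cast (by omega : 1 ≤ w))
            have h4 : (2 : ℝ) ≤ w := by exact_mod_cast (by omega : 2 ≤ w)
            rw [pow_succ]
            nlinarith
          gcongr
      _ = (w : ℝ) ^ (m + s₁ + 3) := by ring
  -- family 3
  have hb3 : ((#(A.biUnion (fun a => (range X).filter (Sift (bad' a) (D ∪ Q)))) : ℕ) : ℝ) ≤
      X * V / 16 := by
    have huw' : u ≤ w' := by
      refine hpm ?_
      have h1 : ((s₁ + 1 : ℕ) : ℝ) ≤ ((2 ^ h : ℕ) : ℝ) := by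
        push_cast
        have h2 : (1 : ℝ) ≤ Real.exp 14 := Real.one_le_exp (by norm_num)
        have h3 : (1 : ℝ) ≤ n := by exact_mod_cast hn
        have h4 : (0 : ℝ) ≤ s₁ := by positivity
        have h5 : (1 : ℝ) ≤ n * Real.exp 14 := by nlinarith
        have h6 : (s₁ : ℝ) + 1 ≤ (n * Real.exp 14) * (s₁ + 1) := by nlinarith
        nlinarith
      exact_mod_cast h1
    have hprod := prime_prod_le (u := u) (v := w') (by omega) huw'
    have hlogw : 0 < Real.log w := Real.log_pos (by exact_mod_cast (by omega : 1 < w))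
    have hratio : Real.log (u : ℝ) / Real.log (w' : ℝ) = (s₁ + 1) / 2 ^ h := by
      rw [hu, hw']
      push_cast
      rw [Real.log_pow, Real.log_pow]
      push_cast
      field_simp
    have hone : ∀ a ∈ A, (#((range X).filter (Sift (bad' a) (D ∪ Q))) : ℝ) ≤
        2 * X * (V * ∏ q ∈ Q, (1 - (1 : ℝ) / q)) := by
      intro a ha
      set ω' : ℕ → ℕ := fun b => if b ≤ w then #A else 1 with hω'
      have hdisj : Disjoint D Q := by
        rw [disjoint_left]
        intro b hb hb'
        have h1 := (hDB b hb).2.2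
        have h2 := (hQw b hb').1
        omega
      have hcopall : ∀ b ∈ D ∪ Q, ∀ c ∈ D ∪ Q, b ≠ c → b.Coprime c := by
        have hDQ : ∀ b ∈ D, ∀ q ∈ Q, b.Coprime q := by
          intro b hb q hq
          have h1 := hDB b hb
          have h2 := hQw q hq
          refine ((Nat.Prime.coprime_iff_not_dvd h2.2.2).mpr ?_).symm
          intro hd
          have := Nat.le_of_dvd (by omega) hd
          omega
        intro b hb c hc hne
        rw [mem_union] at hb hc
        rcases hb with hb | hb <;> rcases hc with hc | hc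
        · exact hBc b (hDB b hb).1 c (hDB c hc).1 hne
        · exact hDQ b hb c hc
        · exact (hDQ c hc b hb).symm
        · exact (Nat.coprime_primes (hQw b hb).2.2 (hQw c hc).2.2).mpr hne
      have hgood' : Good (bad' a) ω' (D ∪ Q) := by
        refine ⟨fun b hb => ?_, fun b hb s => ?_, fun b hb => ?_, hcopall⟩
        · rw [mem_union] at hb
          rcases hb with hb | hb
          · have := (hDB b hb).2.1; omega
          · exact (hQw b hb).2.2.pos
        · simp only [hbad']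
          split_ifs
          · exact bd_periodic M 0 A b s
          · have : M * (s + b) + a = (M * s + a) + b * M := by ring
            rw [this]
            exact (Nat.dvd_add_iff_left (Dvd.intro _ rfl)).symm
        · rw [mem_union] at hb
          rcases hb with hb | hb
          · have h1 := hDB b hb
            simp only [hω', if_pos h1.2.2]
            rw [← card_bd hAn h1.2.1 (hDM b hb) (e := 0)]
            congr 1
            ext s
            simp only [mem_filter, hbad', if_pos h1.2.2]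
          · have h1 := hQw b hb
            have hnw : ¬ b ≤ w := by omega
            simp only [hω', if_neg hnw]
            have hMb : M.Coprime b := by
              refine ((Nat.Prime.coprime_iff_not_dvd h1.2.2).mpr ?_).symm
              intro hd
              have := Nat.le_of_dvd (by omega) hd
              omega
            have h2 := card_bd (b := b) (c := M) (e := 0) (n := n) (A := {a})
              (fun a' ha' => by rw [mem_singleton] at ha'; rw [ha']; exact hAn a ha) (by omega) hMb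
            rw [card_singleton] at h2
            rw [← h2]
            congr 1
            ext s
            simp only [mem_filter, hbad', if_neg hnw, bd, mem_singleton, exists_eq_left,
              Nat.zero_add]
      have hle' : ∀ b ∈ D ∪ Q, b ≤ y₀ ^ (2 ^ (J + h)) := by
        intro b hb
        have hww : y₀ ^ (2 ^ (J + h)) = w' := by
          rw [hw', hw, ← pow_mul, ← pow_add]
        rw [hww]
        rw [mem_union] at hb
        rcases hb with hb | hb
        · exact ((hDB b hb).2.2.trans hwu).trans huw'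
        · exact (hQw b hb).2.1
      have hww : y₀ ^ (2 ^ (J + h)) = w' := by
        rw [hw', hw, ← pow_mul, ← pow_add]
      have h1 := hJ₀ (J + h) (by
          have := le_trans (le_max_left _ _) hJJm
          omega) (bad' a) ω' (D ∪ Q) hgood'
        (fun b hb => ?_) hle'
        (fun i _ => hmassD (D ∪ Q) i (fun b hb => ?_) hcopall)
      · have h2 := (h1.2 X (by
          rw [hww, hw', hX, ← pow_mul]
          refine hpm ?_
          have : 2 ^ h * s₁ = s₁ * 2 ^ h := Nat.mul_comm _ _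
          omega)).2
        refine h2.trans (le_of_eq ?_)
        congr 1
        rw [prod_union hdisj]
        congr 1
        · refine prod_congr rfl fun b hb => ?_
          simp only [hω', if_pos (hDB b hb).2.2]
        · refine prod_congr rfl fun b hb => ?_
          have := (hQw b hb).1
          have hnw : ¬ b ≤ w := by omega
          simp only [hω', if_neg hnw]
          push_cast
          rfl
      · rw [mem_union] at hb
        rcases hb with hb | hb
        · have h2 := hDB b hb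
          simp only [hω', if_pos h2.2.2]
          exact ⟨hAcard, by omega⟩
        · have h2 := hQw b hb
          have hnw : ¬ b ≤ w := by omega
          simp only [hω', if_neg hnw]
          exact ⟨hn, h2.2.2.one_lt⟩
      · rw [mem_union] at hb
        rcases hb with hb | hb
        · exact hB2 b (hDB b hb).1
        · exact (hQw b hb).2.2.two_le
    calc ((#(A.biUnion (fun a => (range X).filter (Sift (bad' a) (D ∪ Q)))) : ℕ) : ℝ)
        ≤ ∑ a ∈ A, (#((range X).filter (Sift (bad' a) (D ∪ Q))) : ℝ) := by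
          exact_mod_cast card_biUnion_le
      _ ≤ ∑ a ∈ A, 2 * X * (V * ∏ q ∈ Q, (1 - (1 : ℝ) / q)) := sum_le_sum hone
      _ = #A * (2 * X * (V * ∏ q ∈ Q, (1 - (1 : ℝ) / q))) := by rw [sum_const, nsmul_eq_mul]
      _ ≤ n * (2 * X * (V * (2 * Real.exp 14 * ((s₁ + 1) / 2 ^ h)))) := by
          have h1 : (#A : ℝ) ≤ n := by exact_mod_cast hAcard
          rw [hratio] at hprod
          have h0 : 0 ≤ ∏ q ∈ Q, (1 - (1 : ℝ) / q) := by
            refine prod_nonneg fun q hq => ?_
            have : (1 : ℝ) ≤ q := by exact_mod_cast (hQw q hq).2.2.one_lt.le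
            rw [sub_nonneg, div_le_one (by linarith)]
            exact this
          gcongr
      _ = X * V * (64 * n * Real.exp 14 * (s₁ + 1)) / (16 * 2 ^ h) := by field_simp; ring
      _ ≤ X * V / 16 := by
          rw [div_le_div_iff₀ (by positivity) (by norm_num)]
          have h2 : (0 : ℝ) < X * V := by positivity
          nlinarith
  -- conclusion
  have htot : ((#((range X).filter (Sift (bd M 0 A) D)) : ℕ) : ℝ) ≤
      1 + X * V / 16 + (w : ℝ) ^ (m + s₁ + 3) + X * V / 16 := by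
    have h1 := (card_le_card hcover).trans ((card_union_le _ _).trans (Nat.add_le_add_right
      ((card_union_le _ _).trans (Nat.add_le_add_right (card_union_le _ _) _)) _))
    have h2 : ((#((range X).filter (Sift (bd M 0 A) D)) : ℕ) : ℝ) ≤
      ((#({0} : Finset ℕ) : ℕ) : ℝ) + ((#(Dm.biUnion (fun b => A.biUnion (fun a =>
        (range X).filter (fun s => Sift (bd M 0 A) D s ∧ b ∣ M * s + a)))) : ℕ) : ℝ) +
      ((#(Dc.biUnion (fun b => A.biUnion (fun a =>
        (range X).filter (fun s => b ∣ M * s + a)))) : ℕ) : ℝ) +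
      ((#(A.biUnion (fun a => (range X).filter (Sift (bad' a) (D ∪ Q)))) : ℕ) : ℝ) := by
      exact_mod_cast h1
    rw [card_singleton] at h2
    push_cast at h2 ⊢
    linarith
  have hXV : (w : ℝ) ^ (2 * m) ≤ X * V := by
    rw [hXR, pow_succ]
    have h1 : 0 ≤ (w : ℝ) ^ (2 * m) := by positivity
    nlinarith
  have hbig : 16 * (w : ℝ) ^ (m + s₁ + 3) ≤ (w : ℝ) ^ (2 * m) := by
    have h1 : (w : ℝ) ^ (m + s₁ + 5) ≤ (w : ℝ) ^ (2 * m) := hwRp (by omega)
    have h2 : (w : ℝ) ^ (m + s₁ + 5) = (w : ℝ) ^ 2 * (w : ℝ) ^ (m + s₁ + 3) := by ring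
    have h3 : (4 : ℝ) ≤ w := by exact_mod_cast hw4
    have h4 : (16 : ℝ) ≤ (w : ℝ) ^ 2 := by nlinarith
    have h5 : 0 ≤ (w : ℝ) ^ (m + s₁ + 3) := by positivity
    rw [h2] at h1
    nlinarith
  have hone' : (1 : ℝ) ≤ (w : ℝ) ^ (m + s₁ + 3) :=
    one_le_pow₀ (by exact_mod_cast (by omega : 1 ≤ w))
  linarith

end Pool.Agent.H14Trans
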