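import Pool.Agent.H14Trans.Brun
import Pool.Agent.PalSieve.Mertens

/-!
# Reciprocal sums of pairwise coprime sets
-/

set_option autoImplicit false

namespace Pool.Agent.H14Trans

open Finset Classical

lemma sum_inv_sq_le (M : ℕ) : ∑ m ∈ Icc 2 M, (1 : ℝ) / (m : ℝ) ^ 2 ≤ 1 := by
  have h : ∀ n : ℕ, ∑ m ∈ Icc 2 (n + 1), (1 : ℝ) / (m : ℝ) ^ 2 ≤ 1 - 1 / ((n : ℝ) + 1) := by
    intro n
    induction n with
    | zero => simp
    | succ n ih =>
      rw [sum_Icc_succ_top (by omega)]
      have h1 : (1 : ℝ) / ((n + 1 + 1 : ℕ) : ℝ) ^ 2 ≤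
          1 / ((n : ℝ) + 1) - 1 / ((n : ℝ) + 1 + 1) := by
        push_cast
        rw [div_sub_div _ _ (by positivity) (by positivity), div_le_div_iff₀ (by positivity)
          (by positivity)]
        nlinarith [Nat.cast_nonneg (α := ℝ) n]
      push_cast at *
      linarith
  rcases Nat.eq_zero_or_pos M with h0 | h0
  · subst h0; simp
  · obtain ⟨n, rfl⟩ : ∃ n, M = n + 1 := ⟨M - 1, by omega⟩
    have : (0 : ℝ) ≤ 1 / ((n : ℝ) + 1) := by positivity
    linarith [h n]

section
variable {F : Finset ℕ}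

lemma minFac_inj (hF : ∀ b ∈ F, 2 ≤ b) (hc : ∀ b ∈ F, ∀ c ∈ F, b ≠ c → b.Coprime c) :
    Set.InjOn Nat.minFac (F : Set ℕ) := by
  intro b hb c hc' h
  by_contra hne
  have h1 := hc b hb c hc' hne
  have h2 : b.minFac ∣ Nat.gcd b c := Nat.dvd_gcd (Nat.minFac_dvd b) (by
    rw [h]; exact Nat.minFac_dvd c)
  rw [h1] at h2
  have h3 : b.minFac = 1 := Nat.dvd_one.mp h2
  rw [Nat.minFac_eq_one_iff] at h3
  have := hF b hb
  omega

lemma comp_sum_le (hF : ∀ b ∈ F, 2 ≤ b ∧ ¬ b.Prime)
    (hc : ∀ b ∈ F, ∀ c ∈ F, b ≠ c → b.Coprime c) : ∑ b ∈ F, (1 : ℝ) / b ≤ 1 := by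
  have hinj := minFac_inj (fun b hb => (hF b hb).1) hc
  calc ∑ b ∈ F, (1 : ℝ) / b ≤ ∑ b ∈ F, (1 : ℝ) / ((b.minFac : ℕ) : ℝ) ^ 2 := by
        refine sum_le_sum fun b hb => ?_
        have h1 := Nat.minFac_sq_le_self (by have := (hF b hb).1; omega) (hF b hb).2
        have h2 : 0 < b.minFac := Nat.minFac_pos b
        refine one_div_le_one_div_of_le (by positivity) ?_
        exact_mod_cast h1
    _ = ∑ m ∈ F.image Nat.minFac, (1 : ℝ) / (m : ℝ) ^ 2 := by
        rw [sum_image hinj]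
    _ ≤ ∑ m ∈ Icc 2 (F.sup id), (1 : ℝ) / (m : ℝ) ^ 2 := by
        refine sum_le_sum_of_subset_of_nonneg ?_ (fun m _ _ => by positivity)
        intro m hm
        rw [mem_image] at hm
        obtain ⟨b, hb, rfl⟩ := hm
        rw [mem_Icc]
        refine ⟨(Nat.minFac_prime (by have := (hF b hb).1; omega)).two_le, ?_⟩
        exact (Nat.minFac_le (by have := (hF b hb).1; omega)).trans (le_sup (f := id) hb)
    _ ≤ 1 := sum_inv_sq_le _

lemma comp_card_le (hF : ∀ b ∈ F, 2 ≤ b ∧ ¬ b.Prime)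
    (hc : ∀ b ∈ F, ∀ c ∈ F, b ≠ c → b.Coprime c) {m : ℕ} (hm : ∀ b ∈ F, b ≤ m ^ 2) :
    #F ≤ m := by
  have hinj := minFac_inj (fun b hb => (hF b hb).1) hc
  rw [← card_image_of_injOn hinj]
  have : F.image Nat.minFac ⊆ Icc 1 m := by
    intro x hx
    rw [mem_image] at hx
    obtain ⟨b, hb, rfl⟩ := hx
    rw [mem_Icc]
    refine ⟨Nat.minFac_pos b, ?_⟩
    have h1 := Nat.minFac_sq_le_self (by have := (hF b hb).1; omega) (hF b hb).2
    exact (Nat.pow_le_pow_iff_left (by norm_num)).mp (h1.trans (hm b hb))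
  simpa using card_le_card this

lemma mass_le (hF : ∀ b ∈ F, 2 ≤ b) (hc : ∀ b ∈ F, ∀ c ∈ F, b ≠ c → b.Coprime c) {y : ℕ}
    (hy : 2 ≤ y) (hy1 : ∀ b ∈ F, y < b) (hy2 : ∀ b ∈ F, b ≤ y ^ 2) :
    ∑ b ∈ F, (1 : ℝ) / b ≤ 16 := by
  rw [← sum_filter_add_sum_filter_not F Nat.Prime]
  have h1 : ∑ b ∈ F.filter (fun b => ¬ b.Prime), (1 : ℝ) / b ≤ 1 := by
    refine comp_sum_le (fun b hb => ?_) (fun b hb c hc' => ?_)
    · rw [mem_filter] at hb; exact ⟨hF b hb.1, hb.2⟩
    · rw [mem_filter] at hb hc'; exact hc b hb.1 c hc'.1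
  have h2 : ∑ b ∈ F.filter Nat.Prime, (1 : ℝ) / b ≤ 15 := by
    calc ∑ b ∈ F.filter Nat.Prime, (1 : ℝ) / b
        ≤ ∑ p ∈ (Ico y (y ^ 2 + 1)).filter Nat.Prime, (1 : ℝ) / p := by
          refine sum_le_sum_of_subset_of_nonneg ?_ (fun m _ _ => by positivity)
          intro b hb
          rw [mem_filter] at hb
          rw [mem_filter, mem_Ico]
          exact ⟨⟨(hy1 b hb.1).le, Nat.lt_succ_of_le (hy2 b hb.1)⟩, hb.2⟩
      _ ≤ 15 := by
          have h3 := (abs_le.mp (Pool.Agent.Sv.abs_sum_inv_sub_le (n := y) (m := y ^ 2 + 1) hy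
            (by nlinarith))).2
          have hl2 : (0.69 : ℝ) < Real.log 2 := by have := Real.log_two_gt_d9; linarith
          have hly : Real.log 2 ≤ Real.log y := Real.log_le_log (by norm_num) (by exact_mod_cast hy)
          have h4 : 9 / Real.log y ≤ 13.05 := by
            rw [div_le_iff₀ (by linarith)]; nlinarith
          have h5 : Real.log ((y ^ 2 + 1 : ℕ) : ℝ) ≤ 3 * Real.log y := by
            have h6 : ((y ^ 2 + 1 : ℕ) : ℝ) ≤ (y : ℝ) ^ 3 := by
              have : y ^ 2 + 1 ≤ y ^ 3 := by nlinarith [Nat.pow_le_pow_left hy 2]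
              exact_mod_cast this
            calc Real.log ((y ^ 2 + 1 : ℕ) : ℝ) ≤ Real.log ((y : ℝ) ^ 3) :=
                  Real.log_le_log (by positivity) h6
              _ = 3 * Real.log y := by rw [Real.log_pow]; norm_num
          have h7 : Real.log (Real.log ((y ^ 2 + 1 : ℕ) : ℝ)) ≤
              Real.log 3 + Real.log (Real.log y) := by
            rw [← Real.log_mul (by norm_num) (by linarith)]
            refine Real.log_le_log ?_ h5
            refine Real.log_pos ?_
            have : 1 < y ^ 2 + 1 := by nlinarith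
            exact_mod_cast this
          have h8 : Real.log 3 ≤ 1.4 := by
            have : Real.log 3 ≤ Real.log 4 := Real.log_le_log (by norm_num) (by norm_num)
            have h9 : Real.log 4 = 2 * Real.log 2 := by
              rw [show (4 : ℝ) = 2 ^ 2 by norm_num, Real.log_pow]; norm_num
            have := Real.log_two_lt_d9
            linarith
          linarith
  linarith

lemma prime_prod_le {u v : ℕ} (hu : 2 ≤ u) (huv : u ≤ v) :
    ∏ q ∈ (Ioc u v).filter Nat.Prime, (1 - (1 : ℝ) / q) ≤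
      2 * Real.exp 14 * (Real.log u / Real.log v) := by
  have hl2 : (0.69 : ℝ) < Real.log 2 := by have := Real.log_two_gt_d9; linarith
  have hlu : Real.log 2 ≤ Real.log u := Real.log_le_log (by norm_num) (by exact_mod_cast hu)
  have hlv : Real.log u ≤ Real.log v := Real.log_le_log (by positivity) (by exact_mod_cast huv)
  have hset : (Ioc u v).filter Nat.Prime = (Ico (u + 1) (v + 1)).filter Nat.Prime := by
    congr 1
    ext x; simp only [mem_Ioc, mem_Ico]; omega
  have h1 : ∏ q ∈ (Ioc u v).filter Nat.Prime, (1 - (1 : ℝ) / q) ≤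
      Real.exp (-∑ q ∈ (Ioc u v).filter Nat.Prime, (1 : ℝ) / q) := by
    rw [← sum_neg_distrib, Real.exp_sum]
    refine prod_le_prod (fun q hq => ?_) (fun q _ => ?_)
    · rw [mem_filter] at hq
      have : (1 : ℝ) ≤ q := by exact_mod_cast hq.2.one_lt.le
      rw [sub_nonneg, div_le_one (by linarith)]
      exact this
    · have := Real.add_one_le_exp (-(1 / (q : ℝ))); linarith
  refine h1.trans ?_
  rw [hset]
  have h2 := (abs_le.mp (Pool.Agent.Sv.abs_sum_inv_sub_le (n := u + 1) (m := v + 1) (by omega)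
    (by omega))).1
  have hlu1 : Real.log 2 ≤ Real.log ((u + 1 : ℕ) : ℝ) :=
    Real.log_le_log (by norm_num) (by exact_mod_cast (by omega : 2 ≤ u + 1))
  have h3 : 9 / Real.log ((u + 1 : ℕ) : ℝ) ≤ 14 := by
    rw [div_le_iff₀ (by linarith)]; nlinarith
  have h4 : Real.log ((u + 1 : ℕ) : ℝ) ≤ 2 * Real.log u := by
    have h6 : ((u + 1 : ℕ) : ℝ) ≤ (u : ℝ) ^ 2 := by
      have : u + 1 ≤ u ^ 2 := by nlinarith
      exact_mod_cast this
    calc Real.log ((u + 1 : ℕ) : ℝ) ≤ Real.log ((u : ℝ) ^ 2) := Real.log_le_log (by positivity) h6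
      _ = 2 * Real.log u := by rw [Real.log_pow]; norm_num
  have h5 : Real.log v ≤ Real.log ((v + 1 : ℕ) : ℝ) :=
    Real.log_le_log (by have : 0 < v := by omega
                        exact_mod_cast this) (by push_cast; linarith)
  have h6 : Real.log (Real.log ((u + 1 : ℕ) : ℝ)) - Real.log (Real.log ((v + 1 : ℕ) : ℝ)) ≤
      Real.log (2 * (Real.log u / Real.log v)) := by
    rw [← Real.log_div (by linarith) (by linarith)]
    refine Real.log_le_log (div_pos (by linarith) (by linarith)) ?_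
    rw [← mul_div_assoc]
    exact div_le_div₀ (by linarith) h4 (by linarith) h5
  calc Real.exp (-∑ q ∈ (Ico (u + 1) (v + 1)).filter Nat.Prime, (1 : ℝ) / q)
      ≤ Real.exp (14 + Real.log (2 * (Real.log u / Real.log v))) :=
        Real.exp_le_exp.mpr (by linarith)
    _ = 2 * Real.exp 14 * (Real.log u / Real.log v) := by
        rw [Real.exp_add, Real.exp_log (by
          have : 0 < Real.log u / Real.log v := div_pos (by linarith) (by linarith)
          linarith)]
        ring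

end

/-! ### Residues -/

/-- `b` divides one of the numbers `c s + e + a`, `a ∈ A` -/
def bd (c e : ℕ) (A : Finset ℕ) (b s : ℕ) : Prop := ∃ a ∈ A, b ∣ c * s + (e + a)

lemma bd_periodic (c e : ℕ) (A : Finset ℕ) (b s : ℕ) : bd c e A b (s + b) ↔ bd c e A b s := by
  unfold bd
  have : ∀ a, b ∣ c * (s + b) + (e + a) ↔ b ∣ c * s + (e + a) := by
    intro a
    have : c * (s + b) + (e + a) = (c * s + (e + a)) + b * c := by ring
    rw [this]
    exact (Nat.dvd_add_iff_left (Dvd.intro _ rfl)).symm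
  simp only [this]

lemma card_residues {b : ℕ} (hb : 0 < b) (T : Finset (ZMod b)) :
    #((range b).filter (fun s : ℕ => ((s : ℕ) : ZMod b) ∈ T)) = #T := by
  have : NeZero b := ⟨hb.ne'⟩
  refine card_nbij' (fun s : ℕ => (s : ZMod b)) (fun z => z.val) ?_ ?_ ?_ ?_
  · intro s hs
    simp only [coe_filter, mem_range] at hs
    exact hs.2
  · intro z hz
    simp only [coe_filter, mem_range]
    refine ⟨ZMod.val_lt z, ?_⟩
    rw [ZMod.natCast_zmod_val]
    exact hz
  · intro s hs
    simp only [coe_filter, mem_range] at hs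
    exact ZMod.val_cast_of_lt hs.1
  · intro z _
    exact ZMod.natCast_zmod_val z

lemma card_bd {b c e n : ℕ} {A : Finset ℕ} (hA : ∀ a ∈ A, a ≤ n) (hb : n < b)
    (hc : c.Coprime b) : #((range b).filter (bd c e A b)) = #A := by
  have hb0 : 0 < b := by omega
  have : NeZero b := ⟨hb0.ne'⟩
  have hu : IsUnit (c : ZMod b) := (ZMod.isUnit_iff_coprime c b).mpr hc
  set T : Finset (ZMod b) := A.image (fun a => -(((e + a : ℕ) : ZMod b)) * (c : ZMod b)⁻¹) with hT
  have h1 : #T = #A := by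
    rw [hT]
    refine card_image_of_injOn ?_
    intro a ha a' ha' h
    have h2 : (((e + a : ℕ) : ZMod b)) = ((e + a' : ℕ) : ZMod b) := by
      have h3 : -(((e + a : ℕ) : ZMod b)) * (c : ZMod b)⁻¹ =
        -(((e + a' : ℕ) : ZMod b)) * (c : ZMod b)⁻¹ := h
      have h4 := congrArg (fun z => z * (c : ZMod b)) h3
      simp only [mul_assoc, ZMod.inv_mul_of_unit _ hu, mul_one, neg_inj] at h4
      exact h4
    push_cast at h2
    have h5 : (a : ZMod b) = a' := add_left_cancel h2
    have h6 := (ZMod.natCast_eq_natCast_iff' a a' b).mp h5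
    have := hA a ha
    have := hA a' ha'
    rwa [Nat.mod_eq_of_lt (by omega), Nat.mod_eq_of_lt (by omega)] at h6
  rw [← h1, ← card_residues hb0 T]
  congr 1
  ext s
  simp only [mem_filter, mem_range, and_congr_right_iff]
  intro _
  unfold bd
  rw [hT, mem_image]
  refine exists_congr fun a => and_congr_right fun _ => ?_
  rw [← ZMod.natCast_eq_zero_iff]
  push_cast
  constructor
  · intro h
    have h7 : (c : ZMod b) * s = -((e : ZMod b) + a) := eq_neg_of_add_eq_zero_left h
    rw [← h7, mul_comm (c : ZMod b), mul_assoc, ZMod.mul_inv_of_unit _ hu, mul_one]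
  · intro h
    rw [← h]
    have : (c : ZMod b) * (-((e : ZMod b) + a) * (c : ZMod b)⁻¹) = -((e : ZMod b) + a) := by
      rw [mul_comm, mul_assoc, ZMod.inv_mul_of_unit _ hu, mul_one]
    rw [this]
    ring

end Pool.Agent.H14Trans
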